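import Mathlib
import Pool.Agent.Helper601.BT
import Pool.Agent.Helper601.PNT

set_option autoImplicit false

/-!
# Counting products of a small integer and a prime in an interval
-/

namespace Pool.Agent.H627.FN

open Finset Filter Topology

/-- `x` is a prime times an integer `s` with `1 ≤ s ≤ z` -/
def Gz (z : ℝ) (x : ℕ) : Prop := ∃ s q : ℕ, 1 ≤ s ∧ (s : ℝ) ≤ z ∧ q.Prime ∧ x = s * q

lemma sum_inv_le {z : ℝ} (hz : 1 ≤ z) : ∑ s ∈ Icc 1 ⌊z⌋₊, ((s : ℝ))⁻¹ ≤ 1 + Real.log z := by
  have h := harmonic_floor_le_one_add_log z hz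
  rw [harmonic_eq_sum_Icc] at h
  push_cast at h
  exact h

lemma le_sum_inv {z : ℝ} (hz : 0 ≤ z) : Real.log z ≤ ∑ s ∈ Icc 1 ⌊z⌋₊, ((s : ℝ))⁻¹ := by
  have h := log_le_harmonic_floor z hz
  rw [harmonic_eq_sum_Icc] at h
  push_cast at h
  exact h

/-- the number of primes in an interval of `H / s + 1` integers -/
lemma bt_term {C0 : ℝ} (hC0 : 1 ≤ C0) (hBT : ∀ (a q N : ℕ), 2 ≤ N → (q = 1 ∨ q.Prime) →
    (((Finset.range N).filter (fun k => (a + k * q).Prime)).card : ℝ) ≤ C0 * N / Real.log N)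
    (a H s : ℕ) (hs : 1 ≤ s) (hH : 2 ≤ H) (hsH : s ^ 2 ≤ H) :
    (((Finset.range (H / s + 1)).filter (fun k => (a + k * 1).Prime)).card : ℝ) ≤
      4 * C0 * (H / Real.log H) * ((s : ℝ))⁻¹ := by
  have hs0 : (0 : ℝ) < s := by exact_mod_cast hs
  have hHr : (2 : ℝ) ≤ H := by exact_mod_cast hH
  have hH0 : (0 : ℝ) < H := by linarith
  have hlog : 0 < Real.log H := Real.log_pos (by linarith)
  have hsH' : s ≤ H := le_trans (by nlinarith) hsH
  have h1 : 1 ≤ H / s := (Nat.one_le_div_iff hs).2 hsH'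
  have hle : (H : ℝ) / s ≤ ((H / s + 1 : ℕ) : ℝ) := by
    rw [div_le_iff₀ hs0]
    have : H ≤ (H / s + 1) * s := ((Nat.div_lt_iff_lt_mul hs).1 (Nat.lt_succ_self _)).le
    exact_mod_cast this
  have hs1 : (1 : ℝ) ≤ H / s := by
    rw [le_div_iff₀ hs0, one_mul]
    exact_mod_cast hsH'
  have hge : ((H / s + 1 : ℕ) : ℝ) ≤ 2 * (H / s) := by
    push_cast
    have := @Nat.cast_div_le ℝ _ _ _ H s
    linarith
  have hsq : (H : ℝ) ≤ (H / s) ^ 2 := by
    rw [div_pow, le_div_iff₀ (by positivity)]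
    have : (s : ℝ) ^ 2 ≤ H := by exact_mod_cast hsH
    nlinarith
  have hl2 : Real.log H / 2 ≤ Real.log ((H / s + 1 : ℕ) : ℝ) := by
    have h2 := Real.log_le_log hH0 hsq
    rw [Real.log_pow] at h2
    push_cast at h2
    have h3 := Real.log_le_log (by linarith) hle
    push_cast at h3
    push_cast
    linarith
  refine (hBT a 1 (H / s + 1) (by omega) (Or.inl rfl)).trans ?_
  calc C0 * ((H / s + 1 : ℕ) : ℝ) / Real.log ((H / s + 1 : ℕ) : ℝ) ≤
      C0 * (2 * (H / s)) / (Real.log H / 2) := by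
        refine div_le_div₀ (by positivity) ?_ (by positivity) hl2
        exact mul_le_mul_of_nonneg_left hge (by linarith)
    _ = _ := by field_simp; ring

open Classical in
/-- **Upper bound in every interval of length `H`.** -/
theorem upper_count : ∃ C : ℝ, 1 ≤ C ∧ ∀ (A H : ℕ) (z : ℝ), 2 ≤ H → 1 ≤ z → z ^ 2 ≤ H →
    (((range H).filter (fun x => Gz z (A + x))).card : ℝ) ≤
      C * (H / Real.log H) * (1 + Real.log z) := by
  obtain ⟨C0, hC0, hBT⟩ := Pool.Agent.Helper601.brun_titchmarsh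
  refine ⟨4 * C0, by linarith, fun A H z hH hz hzH => ?_⟩
  have hHr : (2 : ℝ) ≤ H := by exact_mod_cast hH
  have hlog : 0 < Real.log H := Real.log_pos (by linarith)
  have hsub : (range H).filter (fun x => Gz z (A + x)) ⊆
      (Icc 1 ⌊z⌋₊).biUnion (fun s => ((range (H / s + 1)).filter
        (fun k => ((A + s - 1) / s + k * 1).Prime)).image
        (fun k => s * ((A + s - 1) / s + k) - A)) := by
    intro x hx
    rw [mem_filter, mem_range] at hx
    obtain ⟨hxH, s, q, hs1, hsz, hq, he⟩ := hx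
    rw [mem_biUnion]
    refine ⟨s, mem_Icc.2 ⟨hs1, Nat.le_floor hsz⟩, ?_⟩
    rw [mem_image]
    have h1 : (A + s - 1) / s ≤ q := by
      rw [Nat.div_le_iff_le_mul_add_pred hs1]
      have : A ≤ s * q := by omega
      omega
    have h2 : A ≤ s * ((A + s - 1) / s) := by
      have h3 := Nat.div_add_mod (A + s - 1) s
      have h4 := Nat.mod_lt (A + s - 1) hs1
      omega
    refine ⟨q - (A + s - 1) / s, ?_, ?_⟩
    · rw [mem_filter, mem_range]
      have e : (A + s - 1) / s + (q - (A + s - 1) / s) * 1 = q := by omega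
      rw [e]
      refine ⟨?_, hq⟩
      have h5 : s * (q - (A + s - 1) / s) < H := by
        rw [Nat.mul_sub]
        omega
      have h6 : q - (A + s - 1) / s ≤ H / s := by
        rw [Nat.le_div_iff_mul_le hs1, mul_comm]
        exact h5.le
      omega
    · have e : (A + s - 1) / s + (q - (A + s - 1) / s) = q := by omega
      rw [e, ← he]
      omega
  calc (((range H).filter (fun x => Gz z (A + x))).card : ℝ) ≤
      ((∑ s ∈ Icc 1 ⌊z⌋₊, ((range (H / s + 1)).filter
        (fun k => ((A + s - 1) / s + k * 1).Prime)).card : ℕ) : ℝ) := by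
        exact_mod_cast (card_le_card hsub).trans (card_biUnion_le.trans
          (sum_le_sum fun s _ => card_image_le))
    _ ≤ ∑ s ∈ Icc 1 ⌊z⌋₊, 4 * C0 * (H / Real.log H) * ((s : ℝ))⁻¹ := by
        push_cast
        refine sum_le_sum fun s hs => ?_
        rw [mem_Icc] at hs
        refine bt_term hC0 hBT _ H s hs.1 hH ?_
        have h1 : (s : ℝ) ≤ z := (Nat.le_floor_iff (by linarith)).1 hs.2
        have h2 : (s : ℝ) ^ 2 ≤ H := (pow_le_pow_left₀ (by positivity) h1 2).trans hzH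
        exact_mod_cast h2
    _ = 4 * C0 * (H / Real.log H) * ∑ s ∈ Icc 1 ⌊z⌋₊, ((s : ℝ))⁻¹ := by rw [mul_sum]
    _ ≤ _ := mul_le_mul_of_nonneg_left (sum_inv_le hz) (by positivity)

lemma card_primes_Ioc {a c : ℕ} (h : a ≤ c) :
    (((Ioc a c).filter Nat.Prime).card : ℝ) = Nat.primeCounting c - Nat.primeCounting a := by
  have h1 : ∀ n : ℕ, Nat.primeCounting n = ((range (n + 1)).filter Nat.Prime).card := by
    intro n
    rw [Nat.primeCounting, Nat.primeCounting', Nat.count_eq_card_filter_range]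
  have h2 : (range (c + 1)).filter Nat.Prime =
      (range (a + 1)).filter Nat.Prime ∪ (Ioc a c).filter Nat.Prime := by
    rw [← filter_union]
    congr 1
    ext x
    simp only [mem_range, mem_union, mem_Ioc]
    omega
  have h3 : Disjoint ((range (a + 1)).filter Nat.Prime) ((Ioc a c).filter Nat.Prime) := by
    refine disjoint_filter_filter ?_
    rw [disjoint_left]
    intro x hx hx2
    rw [mem_range] at hx
    rw [mem_Ioc] at hx2
    omega
  rw [h1, h1, h2, card_union_of_disjoint h3]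
  push_cast
  ring

/-- the prime number theorem in `(x, ρ x]` -/
lemma primes_window {ρ : ℝ} (hρ : 1 < ρ) : ∀ᶠ x : ℝ in atTop,
    (ρ - 1) / 2 * (x / Real.log x) ≤ (((Ioc ⌊x⌋₊ ⌊ρ * x⌋₊).filter Nat.Prime).card : ℝ) := by
  have hρ0 : 0 < ρ := by linarith
  have h1 := Pool.Agent.Helper601.PNT.pi_tendsto
  have h2 : Tendsto (fun x : ℝ => ρ * x) atTop atTop := tendsto_id.const_mul_atTop hρ0
  have h3 := h1.comp h2
  have h4 : Tendsto (fun x : ℝ => Real.log x / Real.log (ρ * x)) atTop (𝓝 1) := by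
    have h5 : Tendsto (fun x : ℝ => 1 - Real.log ρ / Real.log (ρ * x)) atTop (𝓝 (1 - 0)) :=
      ((Real.tendsto_log_atTop.comp h2).const_div_atTop (Real.log ρ)).const_sub 1
    rw [sub_zero] at h5
    refine h5.congr' ?_
    filter_upwards [eventually_gt_atTop 1] with x hx
    have hx0 : 0 < x := by linarith
    have h6 : Real.log (ρ * x) = Real.log ρ + Real.log x := Real.log_mul hρ0.ne' hx0.ne'
    have h7 : 0 < Real.log (ρ * x) := Real.log_pos (by nlinarith)
    rw [eq_div_iff h7.ne', sub_mul, div_mul_cancel₀ _ h7.ne', h6]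
    ring
  have h5 : Tendsto (fun x : ℝ => ((Nat.primeCounting ⌊ρ * x⌋₊ : ℝ) * Real.log (ρ * x) / (ρ * x)) *
      (Real.log x / Real.log (ρ * x)) * ρ - (Nat.primeCounting ⌊x⌋₊ : ℝ) * Real.log x / x) atTop
      (𝓝 (1 * 1 * ρ - 1)) := ((h3.mul h4).mul_const ρ).sub h1
  have h6 := h5.eventually_const_lt (show (ρ - 1) / 2 < 1 * 1 * ρ - 1 by linarith)
  filter_upwards [h6, eventually_gt_atTop 1] with x hx hx1
  have hx0 : 0 < x := by linarith
  have hl : 0 < Real.log x := Real.log_pos hx1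
  have hl2 : 0 < Real.log (ρ * x) := Real.log_pos (by nlinarith)
  rw [card_primes_Ioc (Nat.floor_mono (by nlinarith))]
  have e : ((Nat.primeCounting ⌊ρ * x⌋₊ : ℝ) * Real.log (ρ * x) / (ρ * x)) *
      (Real.log x / Real.log (ρ * x)) * ρ - (Nat.primeCounting ⌊x⌋₊ : ℝ) * Real.log x / x =
      ((Nat.primeCounting ⌊ρ * x⌋₊ : ℝ) - (Nat.primeCounting ⌊x⌋₊ : ℝ)) / (x / Real.log x) := by
    field_simp
  rw [e, lt_div_iff₀ (by positivity)] at hx
  exact hx.le

open Classical in
/-- **Lower bound in the interval of length `H` after `N H + c`.** -/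
theorem lower_count {N : ℕ} (hN : 1 ≤ N) : ∃ x1 : ℝ, 1 ≤ x1 ∧ ∀ (H c : ℕ) (z : ℝ), 1 ≤ z →
    z * x1 ≤ H → z ^ 2 ≤ H → c ≤ H →
    H / (6 * Real.log ((N + 1) * H)) * Real.log z ≤
      (((range H).filter (fun x => Gz z (N * H + c + x))).card : ℝ) := by
  set ρ : ℝ := 1 + 1 / (N + 2) with hρ
  have hN2 : (0 : ℝ) < (N : ℝ) + 2 := by positivity
  have hρ1 : 1 < ρ := by
    have : 0 < 1 / ((N : ℝ) + 2) := by positivity
    linarith
  obtain ⟨x0, hx0⟩ := eventually_atTop.1 (primes_window hρ1)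
  refine ⟨max x0 3, le_trans (by norm_num) (le_max_right _ _), fun H c z hz hzx hzH hcH => ?_⟩
  have hz0 : 0 < z := by linarith
  have h3z : 3 * z ≤ H := by
    have := mul_le_mul_of_nonneg_left (le_max_right x0 3) hz0.le
    linarith
  have hH0 : (0 : ℝ) < H := by linarith
  have hNr : (1 : ℝ) ≤ N := by exact_mod_cast hN
  have hcr : (c : ℝ) ≤ H := by exact_mod_cast hcH
  set A := N * H + c with hA
  have hAr : (A : ℝ) = N * H + c := by rw [hA]; push_cast; ring
  have hc0 : (0 : ℝ) ≤ c := Nat.cast_nonneg c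
  have hAH : (H : ℝ) ≤ A := by rw [hAr]; nlinarith
  have hANH : (N : ℝ) * H ≤ A := by rw [hAr]; linarith
  have hAup : (A : ℝ) ≤ (N + 1) * H := by rw [hAr]; nlinarith
  have hA0 : (0 : ℝ) < A := by linarith
  have hρA : ρ * A < A + H := by
    have : (A : ℝ) / (N + 2) < H := by
      rw [div_lt_iff₀ hN2]
      nlinarith
    have e : ρ * A = A + A / (N + 2) := by rw [hρ]; ring
    linarith
  -- the sigma set
  set T : Finset ((_ : ℕ) × ℕ) := (Icc 1 ⌊z⌋₊).sigma
    (fun s => (Ioc ⌊(A : ℝ) / s⌋₊ ⌊ρ * (A / s)⌋₊).filter Nat.Prime) with hT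
  have hmem : ∀ x ∈ T, 1 ≤ x.1 ∧ (x.1 : ℝ) ≤ z ∧ (A : ℝ) < x.1 * x.2 ∧ (x.1 * x.2 : ℝ) < A + H ∧
      x.2.Prime ∧ z < x.2 := by
    intro x hx
    rw [hT, mem_sigma, mem_Icc, mem_filter, mem_Ioc] at hx
    obtain ⟨⟨h1, h2⟩, ⟨h3, h4⟩, h5⟩ := hx
    have h1r : (0 : ℝ) < x.1 := by exact_mod_cast h1
    have h2r : (x.1 : ℝ) ≤ z := (Nat.le_floor_iff hz0.le).1 h2
    have h3r : (A : ℝ) / x.1 < x.2 := (Nat.floor_lt (by positivity)).1 h3
    have h4r : (x.2 : ℝ) ≤ ρ * (A / x.1) := (Nat.le_floor_iff (by positivity)).1 h4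
    refine ⟨h1, h2r, ?_, ?_, h5, ?_⟩
    · rw [div_lt_iff₀ h1r] at h3r
      linarith
    · calc (x.1 * x.2 : ℝ) ≤ x.1 * (ρ * (A / x.1)) := mul_le_mul_of_nonneg_left h4r h1r.le
        _ = ρ * A := by field_simp
        _ < _ := hρA
    · refine lt_of_le_of_lt ?_ h3r
      rw [le_div_iff₀ h1r]
      calc z * x.1 ≤ z * z := mul_le_mul_of_nonneg_left h2r hz0.le
        _ = z ^ 2 := by ring
        _ ≤ H := hzH
        _ ≤ A := hAH
  have hcard : T.card ≤ ((range H).filter (fun x => Gz z (A + x))).card := by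
    refine card_le_card_of_injOn (fun x => x.1 * x.2 - A) ?_ ?_
    · intro x hx
      obtain ⟨h1, h2, h3, h4, h5, h6⟩ := hmem x hx
      have h3' : A < x.1 * x.2 := by exact_mod_cast h3
      have h4' : x.1 * x.2 < A + H := by exact_mod_cast h4
      simp only [coe_filter, Set.mem_setOf_eq, mem_range]
      refine ⟨by omega, x.1, x.2, h1, h2, h5, by omega⟩
    · intro x hx y hy hxy
      obtain ⟨h1, h2, h3, h4, h5, h6⟩ := hmem x hx
      obtain ⟨g1, g2, g3, g4, g5, g6⟩ := hmem y hy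
      have h3' : A < x.1 * x.2 := by exact_mod_cast h3
      have g3' : A < y.1 * y.2 := by exact_mod_cast g3
      simp only at hxy
      have heq : x.1 * x.2 = y.1 * y.2 := by omega
      have hq : x.2 = y.2 := by
        have hd : x.2 ∣ y.1 * y.2 := ⟨x.1, by rw [← heq]; ring⟩
        rcases (Nat.Prime.dvd_mul h5).1 hd with h | h
        · exfalso
          have h7 := Nat.le_of_dvd (by omega) h
          have h8 : (x.2 : ℝ) ≤ y.1 := by exact_mod_cast h7
          linarith
        · exact (Nat.prime_dvd_prime_iff_eq h5 g5).1 h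
      have hs : x.1 = y.1 := by
        rw [hq] at heq
        exact Nat.eq_of_mul_eq_mul_right g5.pos heq
      obtain ⟨x1, x2⟩ := x
      obtain ⟨y1, y2⟩ := y
      simp only at hq hs
      rw [hq, hs]
  have hlogA : 0 < Real.log A := Real.log_pos (by linarith)
  have hlogA2 : Real.log A ≤ Real.log ((N + 1) * H) := Real.log_le_log hA0 hAup
  calc H / (6 * Real.log ((N + 1) * H)) * Real.log z ≤
      H / (6 * Real.log ((N + 1) * H)) * ∑ s ∈ Icc 1 ⌊z⌋₊, ((s : ℝ))⁻¹ := by
        refine mul_le_mul_of_nonneg_left (le_sum_inv hz0.le) ?_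
        have : 0 < Real.log ((N + 1) * H) := lt_of_lt_of_le hlogA hlogA2
        positivity
    _ = ∑ s ∈ Icc 1 ⌊z⌋₊, H / (6 * Real.log ((N + 1) * H)) * ((s : ℝ))⁻¹ := by rw [mul_sum]
    _ ≤ ∑ s ∈ Icc 1 ⌊z⌋₊, (((Ioc ⌊(A : ℝ) / s⌋₊ ⌊ρ * (A / s)⌋₊).filter Nat.Prime).card : ℝ) := by
        refine sum_le_sum fun s hs => ?_
        rw [mem_Icc] at hs
        have hs0 : (0 : ℝ) < s := by exact_mod_cast hs.1
        have hs1 : (1 : ℝ) ≤ s := by exact_mod_cast hs.1
        have hsz : (s : ℝ) ≤ z := (Nat.le_floor_iff hz0.le).1 hs.2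
        have hAs : max x0 3 ≤ (A : ℝ) / s := by
          rw [le_div_iff₀ hs0]
          calc max x0 3 * s ≤ max x0 3 * z :=
                mul_le_mul_of_nonneg_left hsz (le_trans (by norm_num) (le_max_right x0 3))
            _ = z * max x0 3 := by ring
            _ ≤ H := hzx
            _ ≤ A := hAH
        refine le_trans ?_ (hx0 (A / s) ((le_max_left _ _).trans hAs))
        have h3 : (3 : ℝ) ≤ A / s := (le_max_right _ _).trans hAs
        have hl1 : 0 < Real.log (A / s) := Real.log_pos (by linarith)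
        have hl2 : Real.log (A / s) ≤ Real.log ((N + 1) * H) := by
          refine (Real.log_le_log (by positivity) ?_).trans hlogA2
          exact div_le_self hA0.le hs1
        have e1 : (ρ - 1) / 2 = 1 / (2 * (N + 2)) := by rw [hρ]; field_simp; ring
        have e2 : (H : ℝ) / 3 ≤ A / (N + 2) := by
          rw [div_le_div_iff₀ (by norm_num) hN2]
          nlinarith
        calc H / (6 * Real.log ((N + 1) * H)) * ((s : ℝ))⁻¹ =
            (1 / 2) * (H / 3) / s / Real.log ((N + 1) * H) := by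
              have : 0 < Real.log ((N + 1) * H) := lt_of_lt_of_le hlogA hlogA2
              field_simp; ring
          _ ≤ (1 / 2) * (A / (N + 2)) / s / Real.log (A / s) := by
              refine div_le_div₀ (by positivity) ?_ hl1 hl2
              exact div_le_div_of_nonneg_right (mul_le_mul_of_nonneg_left e2 (by norm_num)) hs0.le
          _ = (ρ - 1) / 2 * (A / s / Real.log (A / s)) := by
              rw [e1]
              field_simp
    _ = (T.card : ℝ) := by
        rw [hT, card_sigma]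
        push_cast
        rfl
    _ ≤ _ := by exact_mod_cast hcard

end Pool.Agent.H627.FN
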