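import Mathlib
import Pool.Agent.H627.FN.Cnt
import Pool.Agent.TH888.R.VV

set_option autoImplicit false

/-!
# Counting integers with at most one large prime factor
-/

namespace Pool.Agent.H627.FN

open Finset Filter Topology
open Pool.Agent.H305R2 (VV SM sum_le_VV primesBelow_succ_eq)

/-- the number of prime factors of `x` that exceed `k`, with multiplicity -/
def bigN (k x : ℕ) : ℕ := (x.primeFactorsList.filter (fun p => k < p)).length

/-- the decomposition of an integer with at most one prime factor `> k` -/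
lemma decomp {k x : ℕ} (hx : x ≠ 0) (h : bigN k x ≤ 1) :
    ∃ s r : ℕ, s ∈ SM k ∧ (r = 1 ∨ r.Prime) ∧ x = s * r := by
  refine ⟨(x.primeFactorsList.filter (fun r => decide (r < k + 1))).prod,
    (x.primeFactorsList.filter (fun r => decide (k < r))).prod,
    Nat.prod_mem_smoothNumbers x (k + 1), ?_, ?_⟩
  · unfold bigN at h
    set L := x.primeFactorsList.filter (fun r => decide (k < r)) with hL
    match hLL : L with
    | [] => left; simp
    | [a] =>
      right
      have ha : a ∈ x.primeFactorsList.filter (fun r => decide (k < r)) := by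
        rw [← hL]; simp
      have := Nat.prime_of_mem_primeFactorsList (List.mem_filter.1 ha).1
      simpa using this
    | a :: c :: l => simp at h
  · conv_lhs => rw [← Nat.prod_primeFactorsList hx]
    have h1 := List.filter_append_perm (fun r => decide (r < k + 1)) x.primeFactorsList
    rw [← h1.prod_eq, List.prod_append]
    congr 2
    refine List.filter_congr fun r _ => ?_
    by_cases h2 : r < k + 1
    · have h3 : ¬ k < r := by omega
      simp [h2, h3]
    · have h3 : k < r := by omega
      simp [h2, h3]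

/-- logarithm of the `k`-smooth part -/
noncomputable def lsm (k x : ℕ) : ℝ :=
  ∑ p ∈ (Icc 1 k).filter Nat.Prime, (x.factorization p : ℝ) * Real.log p

lemma log_smooth_le {k x s : ℕ} (hx : x ≠ 0) (hs : s ∈ SM k) (hd : s ∣ x) :
    Real.log s ≤ lsm k x := by
  have hs0 : s ≠ 0 := ne_zero_of_dvd_ne_zero hx hd
  have h1 : Real.log s = ∑ p ∈ s.primeFactors, (s.factorization p : ℝ) * Real.log p := by
    conv_lhs => rw [← Nat.factorization_prod_pow_eq_self hs0]
    rw [Finsupp.prod, Nat.support_factorization]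
    push_cast
    rw [Real.log_prod (fun p hp => by
      have := (Nat.prime_of_mem_primeFactors hp).pos
      positivity)]
    exact sum_congr rfl fun p _ => Real.log_pow _ _
  rw [h1]
  unfold lsm
  have hsub : s.primeFactors ⊆ (Icc 1 k).filter Nat.Prime := by
    intro p hp
    have hp' := Nat.prime_of_mem_primeFactors hp
    have := hs.2 p ((Nat.mem_primeFactors_iff_mem_primeFactorsList).1 hp)
    rw [mem_filter, mem_Icc]
    exact ⟨⟨hp'.one_lt.le, by omega⟩, hp'⟩
  refine (sum_le_sum fun p hp => ?_).trans (sum_le_sum_of_subset_of_nonneg hsub fun p hp _ => ?_)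
  · have h2 : s.factorization p ≤ x.factorization p :=
      (Nat.factorization_le_iff_dvd hs0 hx).2 hd p
    have h3 : (0 : ℝ) ≤ Real.log p := Real.log_natCast_nonneg p
    exact mul_le_mul_of_nonneg_right (by exact_mod_cast h2) h3
  · exact mul_nonneg (Nat.cast_nonneg _) (Real.log_natCast_nonneg p)

lemma sum_fact (p X : ℕ) : ∑ x ∈ Icc 1 X, x.factorization p = (X.factorial).factorization p := by
  induction X with
  | zero => simp
  | succ X ih =>
    rw [sum_Icc_succ_top (by omega), ih, Nat.factorial_succ,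
      Nat.factorization_mul (by omega) (Nat.factorial_ne_zero X)]
    simp [add_comm]

lemma fact_le {p X : ℕ} (hp : p.Prime) : ((X.factorial).factorization p : ℝ) ≤ 2 * (X / p) := by
  have := Fact.mk hp
  have h1 := sub_one_mul_padicValNat_factorial (p := p) X
  have h2 : (p - 1) * (X.factorial).factorization p ≤ X := by
    rw [Nat.factorization_def _ hp, h1]
    omega
  have hp2 : (2 : ℝ) ≤ p := by exact_mod_cast hp.two_le
  have h3 : ((p : ℝ) - 1) * ((X.factorial).factorization p : ℝ) ≤ X := by
    have : (((p - 1 : ℕ) : ℝ)) = (p : ℝ) - 1 := by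
      rw [Nat.cast_sub hp.one_lt.le]; simp
    rw [← this]
    exact_mod_cast h2
  rw [mul_div_assoc', le_div_iff₀ (by linarith)]
  have h4 : (0 : ℝ) ≤ ((X.factorial).factorization p : ℝ) := Nat.cast_nonneg _
  nlinarith

/-- the mean of the logarithm of the smooth part -/
lemma sum_lsm : ∃ C : ℝ, 1 ≤ C ∧ ∀ k X : ℕ, 2 ≤ k → ∑ x ∈ Icc 1 X, lsm k x ≤ C * X * Real.log k := by
  obtain ⟨C1, hC1⟩ := Pool.Agent.Helper601.Mertens.mertens_log
  have hl2 : 0 < Real.log 2 := Real.log_pos (by norm_num)
  refine ⟨2 * (1 + |C1| / Real.log 2) , ?_, fun k X hk => ?_⟩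
  · have : 0 ≤ |C1| / Real.log 2 := by positivity
    linarith
  unfold lsm
  rw [sum_comm]
  have hkr : (2 : ℝ) ≤ k := by exact_mod_cast hk
  have hlk : Real.log 2 ≤ Real.log k := Real.log_le_log (by norm_num) hkr
  calc ∑ p ∈ (Icc 1 k).filter Nat.Prime, ∑ x ∈ Icc 1 X, (x.factorization p : ℝ) * Real.log p ≤
      ∑ p ∈ (Icc 1 k).filter Nat.Prime, 2 * X * (Real.log p / p) := by
        refine sum_le_sum fun p hp => ?_
        rw [mem_filter] at hp
        rw [← sum_mul]
        have h1 : ∑ x ∈ Icc 1 X, (x.factorization p : ℝ) ≤ 2 * (X / p) := by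
          have := sum_fact p X
          have h2 : ∑ x ∈ Icc 1 X, (x.factorization p : ℝ) = ((X.factorial).factorization p : ℝ) := by
            exact_mod_cast this
          rw [h2]
          exact fact_le hp.2
        calc (∑ x ∈ Icc 1 X, (x.factorization p : ℝ)) * Real.log p ≤ 2 * (X / p) * Real.log p :=
              mul_le_mul_of_nonneg_right h1 (Real.log_natCast_nonneg p)
          _ = _ := by ring
    _ = 2 * X * ∑ p ∈ (Icc 1 k).filter Nat.Prime, Real.log p / p := by rw [mul_sum]
    _ ≤ 2 * X * (Real.log k + |C1|) := by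
        refine mul_le_mul_of_nonneg_left ?_ (by positivity)
        have h1 := (abs_le.1 (hC1 k (by omega))).2
        have h2 := le_abs_self C1
        linarith
    _ ≤ 2 * X * (Real.log k + |C1| / Real.log 2 * Real.log k) := by
        refine mul_le_mul_of_nonneg_left ?_ (by positivity)
        have h3 : |C1| ≤ |C1| / Real.log 2 * Real.log k := by
          rw [div_mul_eq_mul_div, le_div_iff₀ hl2]
          exact mul_le_mul_of_nonneg_left hlk (abs_nonneg _)
        linarith
    _ = _ := by ring

lemma VV_le_log : ∃ C : ℝ, 1 ≤ C ∧ ∀ k : ℕ, 2 ≤ k → VV k ≤ C * Real.log k := by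
  obtain ⟨C1, hC1, h⟩ := Pool.Agent.TH888.R.VV_rate
  set G := Real.exp Real.eulerMascheroniConstant with hG
  have hG0 : 0 < G := Real.exp_pos _
  have hl2 : 0 < Real.log 2 := Real.log_pos (by norm_num)
  refine ⟨1 + G + C1 / Real.log 2, ?_, fun k hk => ?_⟩
  · have : 0 ≤ C1 / Real.log 2 := by positivity
    linarith
  have hkr : (2 : ℝ) ≤ k := by exact_mod_cast hk
  have hlk : Real.log 2 ≤ Real.log k := Real.log_le_log (by norm_num) hkr
  have h1 := (abs_le.1 (h k hk)).2
  have h3 : C1 ≤ C1 / Real.log 2 * Real.log k := by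
    rw [div_mul_eq_mul_div, le_div_iff₀ hl2]
    exact mul_le_mul_of_nonneg_left hlk hC1.le
  nlinarith

/-- **Integers up to `X` with at most one prime factor exceeding `k`.** -/
theorem conv_count : ∃ C : ℝ, 1 ≤ C ∧ ∀ k X : ℕ, 2 ≤ k → 4 ≤ X →
    (((Icc 1 X).filter (fun x => bigN k x ≤ 1)).card : ℝ) ≤ C * (X / Real.log X) * Real.log k := by
  obtain ⟨C0, hC0, hBT⟩ := Pool.Agent.Helper601.brun_titchmarsh
  obtain ⟨C1, hC1, hL⟩ := sum_lsm
  obtain ⟨C2, hC2, hV⟩ := VV_le_log
  have hl2 : 0 < Real.log 2 := Real.log_pos (by norm_num)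
  refine ⟨2 * C1 + 4 * C0 * C2 + 4 / Real.log 2, ?_, fun k X hk hX => ?_⟩
  · have : 0 ≤ 4 / Real.log 2 := by positivity
    have : 0 ≤ 4 * C0 * C2 := by positivity
    linarith
  have hXr : (4 : ℝ) ≤ X := by exact_mod_cast hX
  have hX0 : (0 : ℝ) < X := by linarith
  have hlX : 0 < Real.log X := Real.log_pos (by linarith)
  have hkr : (2 : ℝ) ≤ k := by exact_mod_cast hk
  have hlk2 : Real.log 2 ≤ Real.log k := Real.log_le_log (by norm_num) hkr
  have hlk : 0 < Real.log k := by linarith
  set S1 := (Icc 1 X).filter (fun x => Real.log X / 2 < lsm k x) with hS1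
  set S2 := (Icc 1 X).filter (fun x => x ^ 2 ≤ X) with hS2
  set Q := (Icc 1 X).filter (fun s => s ∈ Nat.smoothNumbers (k + 1) ∧ s ^ 2 ≤ X) with hQ
  set S3 := Q.biUnion (fun s => ((range (X / s + 1)).filter (fun j => (0 + j * 1).Prime)).image
    (fun j => s * j)) with hS3
  have hsub : (Icc 1 X).filter (fun x => bigN k x ≤ 1) ⊆ S1 ∪ (S2 ∪ S3) := by
    intro x hx
    rw [mem_filter, mem_Icc] at hx
    obtain ⟨⟨hx1, hxX⟩, hb⟩ := hx
    obtain ⟨s, r, hs, hr, he⟩ := decomp (by omega) hb
    have hs0 : 0 < s := by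
      rcases Nat.eq_zero_or_pos s with h | h
      · rw [h, zero_mul] at he; omega
      · exact h
    rw [mem_union, mem_union]
    by_cases hsX : s ^ 2 ≤ X
    · right
      rcases hr with hr | hr
      · left
        rw [hr, mul_one] at he
        rw [hS2, mem_filter, mem_Icc, he]
        rw [he] at hx1 hxX
        exact ⟨⟨hx1, hxX⟩, hsX⟩
      · right
        rw [hS3, mem_biUnion]
        refine ⟨s, ?_, ?_⟩
        · rw [hQ, mem_filter, mem_Icc]
          refine ⟨⟨hs0, ?_⟩, hs, hsX⟩
          exact (Nat.le_mul_of_pos_right s hr.pos).trans (he ▸ hxX)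
        · rw [mem_image]
          refine ⟨r, ?_, he.symm⟩
          rw [mem_filter, mem_range, zero_add, mul_one]
          refine ⟨?_, hr⟩
          have : r ≤ X / s := by
            rw [Nat.le_div_iff_mul_le hs0, mul_comm, ← he]
            exact hxX
          omega
    · left
      rw [hS1, mem_filter, mem_Icc]
      refine ⟨⟨hx1, hxX⟩, ?_⟩
      have h1 := log_smooth_le (by omega) hs ⟨r, he⟩
      have h2 : (X : ℝ) < (s : ℝ) ^ 2 := by exact_mod_cast (not_le.1 hsX)
      have h3 := Real.log_lt_log hX0 h2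
      rw [Real.log_pow] at h3
      push_cast at h3
      linarith
  -- the three counts
  have c1 : (S1.card : ℝ) ≤ 2 * C1 * (X / Real.log X) * Real.log k := by
    have h1 : (S1.card : ℝ) * (Real.log X / 2) ≤ ∑ x ∈ Icc 1 X, lsm k x := by
      calc (S1.card : ℝ) * (Real.log X / 2) = ∑ x ∈ S1, (Real.log X / 2) := by
            rw [sum_const, nsmul_eq_mul]
        _ ≤ ∑ x ∈ S1, lsm k x := by
            refine sum_le_sum fun x hx => ?_
            rw [hS1, mem_filter] at hx
            exact hx.2.le
        _ ≤ _ := by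
            refine sum_le_sum_of_subset_of_nonneg (filter_subset _ _) fun x _ _ => ?_
            unfold lsm
            exact sum_nonneg fun p _ => mul_nonneg (Nat.cast_nonneg _) (Real.log_natCast_nonneg p)
    have h2 := h1.trans (hL k X hk)
    have e : 2 * C1 * (X / Real.log X) * Real.log k = C1 * X * Real.log k / (Real.log X / 2) := by
      field_simp
    rw [e, le_div_iff₀ (by positivity)]
    exact h2
  have c2 : (S2.card : ℝ) ≤ 4 / Real.log 2 * (X / Real.log X) * Real.log k := by
    have h1 : S2 ⊆ Icc 1 (Nat.sqrt X) := by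
      intro x hx
      rw [hS2, mem_filter, mem_Icc] at hx
      rw [mem_Icc]
      refine ⟨hx.1.1, ?_⟩
      rw [Nat.le_sqrt, ← sq]
      exact hx.2
    have h2 : (S2.card : ℝ) ≤ Real.sqrt X := by
      have h3 : S2.card ≤ Nat.sqrt X := by
        have := card_le_card h1
        rwa [Nat.card_Icc, Nat.add_sub_cancel] at this
      exact (by exact_mod_cast h3 : (S2.card : ℝ) ≤ Nat.sqrt X).trans (Real.nat_sqrt_le_real_sqrt)
    have h3 : Real.log X ≤ 4 * Real.sqrt X := by
      have h4 := Real.log_le_sub_one_of_pos (Real.sqrt_pos.2 hX0)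
      have h5 : Real.log X = 2 * Real.log (Real.sqrt X) := by
        rw [Real.log_sqrt hX0.le]; ring
      have h6 := Real.sqrt_nonneg (X : ℝ)
      rw [h5]
      linarith
    have h7 : Real.sqrt X ≤ 4 * (X / Real.log X) := by
      rw [mul_div_assoc', le_div_iff₀ hlX]
      have h8 := Real.mul_self_sqrt hX0.le
      have h9 := Real.sqrt_nonneg (X : ℝ)
      nlinarith
    have h10 : 4 * (X / Real.log X) ≤ 4 / Real.log 2 * (X / Real.log X) * Real.log k := by
      have h11 : 0 < X / Real.log X := by positivity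
      have e : 4 / Real.log 2 * (X / Real.log X) * Real.log k =
          4 * (X / Real.log X) * (Real.log k / Real.log 2) := by ring
      rw [e]
      refine le_mul_of_one_le_right (by positivity) ?_
      rw [one_le_div hl2]
      exact hlk2
    linarith
  have c3 : (S3.card : ℝ) ≤ 4 * C0 * C2 * (X / Real.log X) * Real.log k := by
    calc (S3.card : ℝ) ≤ ((∑ s ∈ Q, ((range (X / s + 1)).filter
          (fun j => (0 + j * 1).Prime)).card : ℕ) : ℝ) := by
          exact_mod_cast card_biUnion_le.trans (sum_le_sum fun s _ => card_image_le)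
      _ ≤ ∑ s ∈ Q, 4 * C0 * (X / Real.log X) * ((s : ℝ))⁻¹ := by
          push_cast
          refine sum_le_sum fun s hs => ?_
          rw [hQ, mem_filter, mem_Icc] at hs
          have := bt_term hC0 hBT 0 X s hs.1.1 (by omega) hs.2.2
          simpa using this
      _ = 4 * C0 * (X / Real.log X) * ∑ s ∈ Q, ((s : ℝ))⁻¹ := by rw [mul_sum]
      _ ≤ 4 * C0 * (X / Real.log X) * (C2 * Real.log k) := by
          refine mul_le_mul_of_nonneg_left ?_ (by positivity)
          refine (sum_le_VV k Q fun s hs => ?_).trans (hV k hk)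
          rw [hQ, mem_filter] at hs
          exact hs.2.1
      _ = _ := by ring
  have hfin : (((Icc 1 X).filter (fun x => bigN k x ≤ 1)).card : ℝ) ≤ S1.card + (S2.card + S3.card) := by
    have h1 := (card_le_card hsub).trans ((card_union_le _ _).trans
      (Nat.add_le_add_left (card_union_le _ _) _))
    exact_mod_cast h1
  calc _ ≤ _ := hfin
    _ ≤ _ := add_le_add c1 (add_le_add c2 c3)
    _ = _ := by ring

end Pool.Agent.H627.FN
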