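import Mathlib

set_option autoImplicit false

/-!
# An abstract zero-one argument for events given by digits
-/

namespace Pool.Agent.H627.FN

open Finset Filter Topology MeasureTheory

/-- second moment inequality -/
lemma ks {Ω : Type*} [MeasurableSpace Ω] (μ : Measure Ω) [IsFiniteMeasure μ] (F : Finset ℕ)
    (E : ℕ → Set Ω) (hE : ∀ j, MeasurableSet (E j)) :
    (∑ j ∈ F, μ.real (E j)) ^ 2 ≤
      (∑ i ∈ F, ∑ j ∈ F, μ.real (E i ∩ E j)) * μ.real (⋃ j ∈ F, E j) := by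
  set D : Set Ω := ⋃ j ∈ F, E j with hD
  have hDm : MeasurableSet D := Finset.measurableSet_biUnion F fun j _ => hE j
  have hint : ∀ s : Set Ω, MeasurableSet s → Integrable (s.indicator (fun _ => (1 : ℝ))) μ :=
    fun s hs => (integrable_const (1 : ℝ)).indicator hs
  have hval : ∀ s : Set Ω, MeasurableSet s → ∫ x, s.indicator (fun _ => (1 : ℝ)) x ∂μ = μ.real s := by
    intro s hs
    rw [integral_indicator_const _ hs]; simp
  have key : ∀ l : ℝ, 0 ≤ (∑ i ∈ F, ∑ j ∈ F, μ.real (E i ∩ E j)) * (l * l) +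
      (-2 * ∑ j ∈ F, μ.real (E j)) * l + μ.real D := by
    intro l
    have h1 : ∀ x, (l * (∑ j ∈ F, (E j).indicator (fun _ => (1 : ℝ)) x) -
        D.indicator (fun _ => (1 : ℝ)) x) ^ 2 =
        (l * l) * (∑ i ∈ F, ∑ j ∈ F, (E i ∩ E j).indicator (fun _ => (1 : ℝ)) x) +
          (-2 * l) * (∑ j ∈ F, (E j).indicator (fun _ => (1 : ℝ)) x) +
          D.indicator (fun _ => (1 : ℝ)) x := by
      intro x
      have e1 : (∑ i ∈ F, ∑ j ∈ F, (E i ∩ E j).indicator (fun _ => (1 : ℝ)) x) =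
          (∑ j ∈ F, (E j).indicator (fun _ => (1 : ℝ)) x) ^ 2 := by
        rw [sq, sum_mul_sum]
        refine sum_congr rfl fun i _ => sum_congr rfl fun j _ => ?_
        by_cases h1 : x ∈ E i <;> by_cases h2 : x ∈ E j <;> simp [Set.indicator, h1, h2]
      by_cases hx : x ∈ D
      · rw [e1, Set.indicator_of_mem hx]
        ring
      · have e2 : (∑ j ∈ F, (E j).indicator (fun _ => (1 : ℝ)) x) = 0 := by
          refine sum_eq_zero fun j hj => ?_
          refine Set.indicator_of_notMem (fun h => hx ?_) _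
          rw [hD]
          exact Set.mem_biUnion hj h
        rw [e1, e2, Set.indicator_of_notMem hx]
        ring
    have h2 : 0 ≤ ∫ x, (l * (∑ j ∈ F, (E j).indicator (fun _ => (1 : ℝ)) x) -
        D.indicator (fun _ => (1 : ℝ)) x) ^ 2 ∂μ := integral_nonneg fun x => sq_nonneg _
    simp only [h1] at h2
    have i1 : Integrable (fun x => ∑ i ∈ F, ∑ j ∈ F, (E i ∩ E j).indicator (fun _ => (1 : ℝ)) x) μ :=
      integrable_finsetSum _ fun i _ => integrable_finsetSum _ fun j _ => hint _ ((hE i).inter (hE j))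
    have i2 : Integrable (fun x => ∑ j ∈ F, (E j).indicator (fun _ => (1 : ℝ)) x) μ :=
      integrable_finsetSum _ fun j _ => hint _ (hE j)
    have i3 : Integrable (fun x => (l * l) * (∑ i ∈ F, ∑ j ∈ F,
        (E i ∩ E j).indicator (fun _ => (1 : ℝ)) x) +
          (-2 * l) * (∑ j ∈ F, (E j).indicator (fun _ => (1 : ℝ)) x)) μ :=
      (i1.const_mul _).add (i2.const_mul _)
    rw [integral_add i3 (hint _ hDm),
      integral_add (i1.const_mul _) (i2.const_mul _), integral_const_mul, integral_const_mul,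
      integral_finsetSum _ (fun j _ => hint _ (hE j)), hval _ hDm,
      integral_finsetSum _ (fun i _ => integrable_finsetSum _ fun j _ =>
        hint _ ((hE i).inter (hE j)))] at h2
    have e3 : ∀ i ∈ F, ∫ x, ∑ j ∈ F, (E i ∩ E j).indicator (fun _ => (1 : ℝ)) x ∂μ =
        ∑ j ∈ F, μ.real (E i ∩ E j) := by
      intro i _
      rw [integral_finsetSum _ (fun j _ => hint _ ((hE i).inter (hE j)))]
      exact sum_congr rfl fun j _ => hval _ ((hE i).inter (hE j))
    have e4 : ∀ j ∈ F, ∫ x, (E j).indicator (fun _ => (1 : ℝ)) x ∂μ = μ.real (E j) :=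
      fun j _ => hval _ (hE j)
    rw [sum_congr rfl e3, sum_congr rfl e4] at h2
    linarith
  have h := discrim_le_zero key
  unfold discrim at h
  linarith

/-- the `b`-adic interval of level `L` with index `N` -/
def At (b L N : ℕ) : Set ℝ := Set.Ico ((N : ℝ) / (b : ℝ) ^ L) (((N : ℝ) + 1) / (b : ℝ) ^ L)

/-- the event that the integer part of `β b ^ n_j` satisfies `S_j` -/
def Ev (b : ℕ) (n : ℕ → ℕ) (S : ℕ → ℕ → Prop) (j : ℕ) : Set ℝ :=
  {β : ℝ | 0 ≤ β ∧ S j ⌊β * (b : ℝ) ^ n j⌋₊}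

variable {b : ℕ}

lemma mem_At (hb : 2 ≤ b) {L N : ℕ} {β : ℝ} : β ∈ At b L N ↔ 0 ≤ β ∧ ⌊β * (b : ℝ) ^ L⌋₊ = N := by
  have hb0 : (0 : ℝ) < (b : ℝ) ^ L := by
    have : (0 : ℝ) < b := by exact_mod_cast (by omega : 0 < b)
    positivity
  unfold At
  rw [Set.mem_Ico, div_le_iff₀ hb0, lt_div_iff₀ hb0]
  constructor
  · rintro ⟨h1, h2⟩
    have h3 : 0 ≤ β * (b : ℝ) ^ L := le_trans (Nat.cast_nonneg N) h1
    refine ⟨nonneg_of_mul_nonneg_left h3 hb0, ?_⟩
    rw [Nat.floor_eq_iff h3]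
    exact ⟨h1, h2⟩
  · rintro ⟨h1, h2⟩
    have h3 : 0 ≤ β * (b : ℝ) ^ L := by positivity
    exact (Nat.floor_eq_iff h3).1 h2

lemma measurable_At (L N : ℕ) : MeasurableSet (At b L N) := measurableSet_Ico

lemma vol_At (hb : 2 ≤ b) (L N : ℕ) : volume.real (At b L N) = 1 / (b : ℝ) ^ L := by
  have hb0 : (0 : ℝ) < (b : ℝ) ^ L := by
    have : (0 : ℝ) < b := by exact_mod_cast (by omega : 0 < b)
    positivity
  unfold At
  rw [Real.volume_real_Ico_of_le]
  · ring
  · gcongr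
    linarith

lemma vol_At_ne_top (L N : ℕ) : volume (At b L N) ≠ ⊤ := by
  unfold At
  rw [Real.volume_Ico]
  exact ENNReal.ofReal_ne_top

/-- the integer part at a lower level -/
lemma floor_lower (hb : 2 ≤ b) {L M : ℕ} (h : L ≤ M) (β : ℝ) :
    ⌊β * (b : ℝ) ^ L⌋₊ = ⌊β * (b : ℝ) ^ M⌋₊ / b ^ (M - L) := by
  have hb0 : (0 : ℝ) < b := by exact_mod_cast (by omega : 0 < b)
  rw [← Nat.floor_div_natCast]
  congr 1
  push_cast
  have : (b : ℝ) ^ M = (b : ℝ) ^ L * (b : ℝ) ^ (M - L) := by rw [← pow_add]; congr 1; omega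
  rw [this]
  field_simp

lemma div_eq_iff_range {H x N : ℕ} (hH : 0 < H) : x / H = N ↔ ∃ y < H, x = N * H + y := by
  constructor
  · intro h
    refine ⟨x % H, Nat.mod_lt _ hH, ?_⟩
    have := Nat.div_add_mod x H
    rw [h, mul_comm] at this
    exact this.symm
  · rintro ⟨y, hy, rfl⟩
    rw [mul_comm, Nat.mul_add_div hH, Nat.div_eq_of_lt hy, add_zero]

open Classical in
/-- an event determined at level `M` inside an atom of level `L ≤ M` -/
lemma At_inter (hb : 2 ≤ b) {L M : ℕ} (h : L ≤ M) (N : ℕ) (P : ℕ → Prop) :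
    At b L N ∩ {β : ℝ | 0 ≤ β ∧ P ⌊β * (b : ℝ) ^ M⌋₊} =
      ⋃ x ∈ (range (b ^ (M - L))).filter (fun x => P (N * b ^ (M - L) + x)),
        At b M (N * b ^ (M - L) + x) := by
  have hH : 0 < b ^ (M - L) := Nat.pow_pos (by omega)
  ext β
  simp only [Set.mem_inter_iff, mem_At hb, Set.mem_ofPred_eq, Set.mem_iUnion, mem_filter, mem_range,
    exists_prop]
  constructor
  · rintro ⟨⟨h1, h2⟩, _, h4⟩
    rw [floor_lower hb h, div_eq_iff_range hH] at h2
    obtain ⟨y, hy, he⟩ := h2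
    rw [he] at h4
    exact ⟨y, ⟨hy, h4⟩, h1, he⟩
  · rintro ⟨x, ⟨hx, hP⟩, h1, he⟩
    refine ⟨⟨h1, ?_⟩, h1, ?_⟩
    · rw [floor_lower hb h, div_eq_iff_range hH]
      exact ⟨x, hx, he⟩
    · rw [he]; exact hP

lemma At_disj (hb : 2 ≤ b) (M : ℕ) {x y : ℕ} (h : x ≠ y) : Disjoint (At b M x) (At b M y) := by
  rw [Set.disjoint_left]
  intro β h1 h2
  rw [mem_At hb] at h1 h2
  exact h (h1.2.symm.trans h2.2)

open Classical in
lemma vol_inter (hb : 2 ≤ b) {L M : ℕ} (h : L ≤ M) (N : ℕ) (P : ℕ → Prop) :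
    volume.real (At b L N ∩ {β : ℝ | 0 ≤ β ∧ P ⌊β * (b : ℝ) ^ M⌋₊}) =
      (((range (b ^ (M - L))).filter (fun x => P (N * b ^ (M - L) + x))).card : ℝ) / (b : ℝ) ^ M := by
  rw [At_inter hb h, measureReal_biUnion_finset (fun x _ y _ hxy => At_disj hb M (by omega))
    (fun x _ => measurable_At M _) (fun x _ => vol_At_ne_top M _)]
  rw [sum_congr rfl fun x _ => vol_At hb M _, sum_const, nsmul_eq_mul]
  ring

lemma measurable_Ev (hb : 2 ≤ b) (n : ℕ → ℕ) (S : ℕ → ℕ → Prop) (j : ℕ) :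
    MeasurableSet (Ev b n S j) := by
  classical
  have : Ev b n S j = ⋃ N ∈ {N : ℕ | S j N}, At b (n j) N := by
    ext β
    simp only [Ev, Set.mem_ofPred_eq, Set.mem_iUnion, mem_At hb, exists_prop]
    constructor
    · rintro ⟨h1, h2⟩; exact ⟨_, h2, h1, rfl⟩
    · rintro ⟨N, h2, h1, rfl⟩; exact ⟨h1, h2⟩
  rw [this]
  exact MeasurableSet.biUnion (Set.to_countable _) fun N _ => measurable_At _ _

end Pool.Agent.H627.FN
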