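import Mathlib
import Pool.Agent.H627.FN.Prob

set_option autoImplicit false

/-!
# An abstract zero-one argument for events given by digits, continued
-/

namespace Pool.Agent.H627.FN

open Finset Filter Topology MeasureTheory

variable {b : ℕ} {n : ℕ → ℕ} {S : ℕ → ℕ → Prop}

open Classical in
/-- the upper bound at level `n j` inside the atoms of level `n i` -/
def Upp (b : ℕ) (n : ℕ → ℕ) (S : ℕ → ℕ → Prop) (v : ℕ → ℝ) : Prop :=
  ∀ i j : ℕ, i < j → ∀ N : ℕ, (((range (b ^ (n j - n i))).filter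
    (fun x => S j (N * b ^ (n j - n i) + x))).card : ℝ) ≤ v j * (b : ℝ) ^ (n j - n i)

open Classical in
/-- the lower bound inside a fixed atom -/
def Low (b : ℕ) (n : ℕ → ℕ) (S : ℕ → ℕ → Prop) (w : ℕ → ℝ) : Prop :=
  ∀ L N : ℕ, 1 ≤ N → ∀ᶠ j in atTop, w j * (b : ℝ) ^ (n j - L) ≤
    (((range (b ^ (n j - L))).filter (fun x => S j (N * b ^ (n j - L) + x))).card : ℝ)

lemma b_pos (hb : 2 ≤ b) (k : ℕ) : (0 : ℝ) < (b : ℝ) ^ k := by
  have : (0 : ℝ) < b := by exact_mod_cast (by omega : 0 < b)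
  positivity

lemma b_split (hb : 2 ≤ b) {L M : ℕ} (h : L ≤ M) : (b : ℝ) ^ M = (b : ℝ) ^ L * (b : ℝ) ^ (M - L) := by
  rw [← pow_add]; congr 1; omega

/-- pairs -/
lemma pair_le (hb : 2 ≤ b) (hn : StrictMono n) {v : ℕ → ℝ} (hU : Upp b n S v) {i j : ℕ} (hij : i < j)
    {L : ℕ} (hL : L ≤ n i) (N : ℕ) :
    volume.real (At b L N ∩ (Ev b n S i ∩ Ev b n S j)) ≤ v j * volume.real (At b L N ∩ Ev b n S i) := by
  classical
  have hnij : n i ≤ n j := (hn hij).le
  set H := b ^ (n i - L) with hH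
  set T := (range H).filter (fun x => S i (N * H + x)) with hT
  have h1 : At b L N ∩ (Ev b n S i ∩ Ev b n S j) =
      ⋃ x ∈ T, (At b (n i) (N * H + x) ∩ Ev b n S j) := by
    rw [← Set.inter_assoc]
    have h2 := At_inter hb hL N (S i)
    have h3 : At b L N ∩ Ev b n S i = ⋃ x ∈ T, At b (n i) (N * H + x) := by
      rw [hT, hH]; exact h2
    rw [h3, Set.iUnion₂_inter]
  have h4 : volume.real (At b L N ∩ Ev b n S i) = (T.card : ℝ) / (b : ℝ) ^ (n i) :=
    vol_inter hb hL N (S i)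
  rw [h1, h4]
  refine (measureReal_biUnion_finset_le _ _).trans ?_
  calc ∑ x ∈ T, volume.real (At b (n i) (N * H + x) ∩ Ev b n S j) ≤
      ∑ x ∈ T, v j / (b : ℝ) ^ (n i) := by
        refine sum_le_sum fun x _ => ?_
        have h5 := vol_inter hb hnij (N * H + x) (S j)
        have h6 : volume.real (At b (n i) (N * H + x) ∩ Ev b n S j) = _ := h5
        rw [h6, div_le_div_iff₀ (b_pos hb _) (b_pos hb _), b_split hb hnij]
        have h7 := hU i j hij (N * H + x)
        have h8 := b_pos hb (n i)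
        nlinarith
    _ = _ := by rw [sum_const, nsmul_eq_mul]; ring

/-- lower bound for the union inside an atom -/
lemma lower_union (hb : 2 ≤ b) (hn : StrictMono n) {w v e : ℕ → ℝ} {K : ℝ} (hK : 1 ≤ K)
    (hw : ∀ j, 0 ≤ w j) (hv0 : ∀ j, 0 ≤ v j) (hv : ∀ j, v j ≤ K * (w j + e j)) (he0 : ∀ j, 0 ≤ e j)
    (he : Summable e) (hdiv : ¬ Summable w) (hU : Upp b n S v) (hLo : Low b n S w) {L N : ℕ}
    (hN : 1 ≤ N) (M : ℕ) :
    1 / (4 * K) / (b : ℝ) ^ L ≤ volume.real (At b L N ∩ {β | ∃ j, M ≤ j ∧ β ∈ Ev b n S j}) := by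
  classical
  obtain ⟨j0, hj0⟩ := eventually_atTop.1 ((hLo L N hN).and (hn.tendsto_atTop.eventually_ge_atTop L))
  set M' := max M j0 with hM'
  set μ : Measure ℝ := volume.restrict (At b L N) with hμ
  have hfin : IsFiniteMeasure μ := ⟨by
    rw [hμ, Measure.restrict_apply_univ]; exact lt_top_iff_ne_top.2 (vol_At_ne_top L N)⟩
  set a : ℕ → ℝ := fun j => μ.real (Ev b n S j) with ha
  have hμE : ∀ E : Set ℝ, MeasurableSet E → μ.real E = volume.real (At b L N ∩ E) := by
    intro E hE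
    rw [hμ, measureReal_restrict_apply hE, Set.inter_comm]
  have hEm := measurable_Ev hb n S
  have hbL := b_pos hb L
  have ha_low : ∀ j, M' ≤ j → w j / (b : ℝ) ^ L ≤ a j := by
    intro j hj
    obtain ⟨h1, h2⟩ := hj0 j ((le_max_right _ _).trans hj)
    simp only [ha]
    rw [hμE _ (hEm j)]
    have h3 : volume.real (At b L N ∩ Ev b n S j) = _ := vol_inter hb h2 N (S j)
    rw [h3, div_le_div_iff₀ hbL (b_pos hb _), b_split hb h2]
    nlinarith
  have ha0 : ∀ j, 0 ≤ a j := fun j => measureReal_nonneg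
  have hpair : ∀ i j, M' ≤ i → i < j → μ.real (Ev b n S i ∩ Ev b n S j) ≤ v j * a i := by
    intro i j hi hij
    simp only [ha]
    rw [hμE _ ((hEm i).inter (hEm j)), hμE _ (hEm i)]
    exact pair_le hb hn hU hij (hj0 i ((le_max_right _ _).trans hi)).2 N
  -- partial sums
  set E0 := ∑' j, e j with hE0
  have hdiv' : Tendsto (fun J => ∑ j ∈ Icc M' J, w j) atTop atTop := by
    have h1 : Tendsto (fun J => ∑ j ∈ range J, w j) atTop atTop :=
      (not_summable_iff_tendsto_nat_atTop_of_nonneg hw).1 hdiv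
    have h2 : Tendsto (fun J => ∑ j ∈ range (J + 1), w j - ∑ j ∈ range M', w j) atTop atTop :=
      tendsto_atTop_add_const_right _ _ ((tendsto_add_atTop_iff_nat 1).2 h1)
    refine tendsto_atTop_mono' _ ?_ h2
    filter_upwards [eventually_ge_atTop M'] with J hJ
    have h3 : range (J + 1) = range M' ∪ Icc M' J := by
      ext x; simp only [mem_range, mem_union, mem_Icc]; omega
    have h4 : Disjoint (range M') (Icc M' J) := by
      rw [disjoint_left]; intro x h5 h6; rw [mem_range] at h5; rw [mem_Icc] at h6; omega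
    rw [h3, sum_union h4]
    linarith
  obtain ⟨J, hJ⟩ := (hdiv'.eventually_ge_atTop ((1 + 2 * K * E0) / (2 * K) + 1)).exists
  set F := Icc M' J with hF
  set W := ∑ j ∈ F, w j with hW
  set V := ∑ j ∈ F, v j with hV
  set s1 := ∑ j ∈ F, a j with hs1
  have hE0n : 0 ≤ E0 := tsum_nonneg he0
  have hVle : V ≤ K * (W + E0) := by
    calc V ≤ ∑ j ∈ F, K * (w j + e j) := sum_le_sum fun j _ => hv j
      _ = K * (W + ∑ j ∈ F, e j) := by rw [← mul_sum, sum_add_distrib]
      _ ≤ _ := by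
        refine mul_le_mul_of_nonneg_left ?_ (by linarith)
        have := he.sum_le_tsum F (fun j _ => he0 j)
        linarith
  have hV0 : 0 ≤ V := sum_nonneg fun j _ => hv0 j
  have hWpos : 0 < W := by
    have : 0 ≤ (1 + 2 * K * E0) / (2 * K) := by positivity
    linarith
  have hs1low : W / (b : ℝ) ^ L ≤ s1 := by
    rw [hW, sum_div]
    refine sum_le_sum fun j hj => ha_low j ?_
    rw [hF, mem_Icc] at hj
    exact hj.1
  have hs1pos : 0 < s1 := lt_of_lt_of_le (by positivity) hs1low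
  have hs2 : ∑ i ∈ F, ∑ j ∈ F, μ.real (Ev b n S i ∩ Ev b n S j) ≤ s1 * (1 + 2 * V) := by
    calc ∑ i ∈ F, ∑ j ∈ F, μ.real (Ev b n S i ∩ Ev b n S j) ≤
        ∑ i ∈ F, ∑ j ∈ F, ((if i = j then a i else 0) + (v j * a i + v i * a j)) := by
          refine sum_le_sum fun i hi => sum_le_sum fun j hj => ?_
          rw [hF, mem_Icc] at hi hj
          have n1 : 0 ≤ v j * a i := mul_nonneg (hv0 j) (ha0 i)
          have n2 : 0 ≤ v i * a j := mul_nonneg (hv0 i) (ha0 j)
          rcases lt_trichotomy i j with h | h | h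
          · rw [if_neg h.ne]
            have := hpair i j hi.1 h
            linarith
          · subst h
            rw [if_pos rfl, Set.inter_self]
            simp only [ha] at n1 n2 ⊢
            linarith
          · rw [if_neg h.ne', Set.inter_comm]
            have := hpair j i hj.1 h
            linarith
      _ = s1 * (1 + 2 * V) := by
          simp only [sum_add_distrib]
          have e1 : ∑ i ∈ F, ∑ j ∈ F, (if i = j then a i else 0) = s1 := by
            rw [hs1]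
            refine sum_congr rfl fun i hi => ?_
            rw [sum_ite_eq, if_pos hi]
          have e2 : ∑ i ∈ F, ∑ j ∈ F, v j * a i = V * s1 := by
            rw [sum_comm, hV, hs1, sum_mul_sum]
          have e3 : ∑ i ∈ F, ∑ j ∈ F, v i * a j = V * s1 := by
            rw [hV, hs1, sum_mul_sum]
          rw [e1, e2, e3]
          ring
  have hks := ks μ F (fun j => Ev b n S j) hEm
  set d := μ.real (⋃ j ∈ F, Ev b n S j) with hd
  have hd0 : 0 ≤ d := measureReal_nonneg
  have hks2 : s1 ^ 2 ≤ s1 * (1 + 2 * V) * d :=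
    hks.trans (mul_le_mul_of_nonneg_right hs2 hd0)
  have hks3 : s1 ≤ (1 + 2 * V) * d := by
    have : s1 * s1 ≤ s1 * ((1 + 2 * V) * d) := by nlinarith
    exact le_of_mul_le_mul_left this hs1pos
  have hdlow : 1 / (4 * K) / (b : ℝ) ^ L ≤ d := by
    have h1 : W / (b : ℝ) ^ L ≤ (1 + 2 * (K * (W + E0))) * d :=
      hs1low.trans (hks3.trans (mul_le_mul_of_nonneg_right (by linarith) hd0))
    have h2 : 1 + 2 * (K * (W + E0)) ≤ 4 * K * W := by
      have h3 : (1 + 2 * K * E0) / (2 * K) ≤ W := by linarith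
      rw [div_le_iff₀ (by linarith)] at h3
      nlinarith
    have h3 : W / (b : ℝ) ^ L ≤ 4 * K * W * d := h1.trans (mul_le_mul_of_nonneg_right h2 hd0)
    rw [div_le_iff₀ hbL] at h3
    rw [div_div, div_le_iff₀ (by positivity)]
    have h4 : W * 1 ≤ W * (4 * K * d * (b : ℝ) ^ L) := by nlinarith
    have h5 := le_of_mul_le_mul_left h4 hWpos
    nlinarith
  refine hdlow.trans ?_
  rw [hd, hμE _ (Finset.measurableSet_biUnion F fun j _ => hEm j)]
  refine measureReal_mono (Set.inter_subset_inter_right _ ?_) ?_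
  · intro β hβ
    simp only [Set.mem_iUnion, exists_prop] at hβ
    obtain ⟨j, hj, hβj⟩ := hβ
    rw [hF, mem_Icc] at hj
    exact ⟨j, (le_max_left _ _).trans hj.1, hβj⟩
  · exact measure_ne_top_of_subset Set.inter_subset_left (vol_At_ne_top L N)

/-- contraction -/
lemma null_of_lower (hb : 2 ≤ b) (hn : StrictMono n) {κ : ℝ} (hκ : 0 < κ)
    (h : ∀ L N : ℕ, 1 ≤ N → ∀ M : ℕ,
      κ / (b : ℝ) ^ L ≤ volume.real (At b L N ∩ {β | ∃ j, M ≤ j ∧ β ∈ Ev b n S j}))
    {L N : ℕ} (hN : 1 ≤ N) (M : ℕ) :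
    volume (At b L N \ {β | ∃ j, M ≤ j ∧ β ∈ Ev b n S j}) = 0 := by
  classical
  set U : Set ℝ := {β | ∃ j, M ≤ j ∧ β ∈ Ev b n S j} with hU
  have hEm := measurable_Ev hb n S
  have hUm : MeasurableSet U := by
    have : U = ⋃ j ∈ {j : ℕ | M ≤ j}, Ev b n S j := by
      ext β; simp [hU]
    rw [this]
    exact MeasurableSet.biUnion (Set.to_countable _) fun j _ => hEm j
  set D : ℕ → Set ℝ := fun J => At b L N \ {β | ∃ j, M ≤ j ∧ j ≤ J ∧ β ∈ Ev b n S j} with hD
  set D0 : Set ℝ := At b L N \ U with hD0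
  have hDm : ∀ J, MeasurableSet (D J) := by
    intro J
    have : {β | ∃ j, M ≤ j ∧ j ≤ J ∧ β ∈ Ev b n S j} = ⋃ j ∈ {j : ℕ | M ≤ j ∧ j ≤ J}, Ev b n S j := by
      ext β; simp [and_assoc]
    simp only [hD]
    rw [this]
    exact (measurable_At L N).diff (MeasurableSet.biUnion (Set.to_countable _) fun j _ => hEm j)
  have hfin : ∀ s : Set ℝ, s ⊆ At b L N → volume s ≠ ⊤ := fun s hs =>
    measure_ne_top_of_subset hs (vol_At_ne_top L N)
  -- the main inequality
  have hmain : ∀ J, L ≤ n J → volume.real D0 ≤ (1 - κ) * volume.real (D J) := by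
    intro J hJ
    set P : ℕ → Prop := fun y => ∀ j, M ≤ j → j ≤ J → ¬ S j (y / b ^ (n J - n j)) with hP
    have hDeq : D J = At b L N ∩ {β : ℝ | 0 ≤ β ∧ P ⌊β * (b : ℝ) ^ n J⌋₊} := by
      ext β
      simp only [hD, hP, Set.mem_sdiff, Set.mem_inter_iff, Set.mem_ofPred_eq, Ev]
      constructor
      · rintro ⟨h1, h2⟩
        have h0 := ((mem_At hb).1 h1).1
        refine ⟨h1, h0, fun j hj1 hj2 hS => h2 ⟨j, hj1, hj2, h0, ?_⟩⟩
        rw [floor_lower hb (hn.monotone hj2)]
        exact hS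
      · rintro ⟨h1, h0, h2⟩
        refine ⟨h1, ?_⟩
        rintro ⟨j, hj1, hj2, _, hS⟩
        rw [floor_lower hb (hn.monotone hj2)] at hS
        exact h2 j hj1 hj2 hS
    set T := (range (b ^ (n J - L))).filter (fun x => P (N * b ^ (n J - L) + x)) with hT
    have hDU : D J = ⋃ x ∈ T, At b (n J) (N * b ^ (n J - L) + x) := by
      rw [hDeq]
      convert At_inter hb hJ N P
    have hvD : volume.real (D J) = (T.card : ℝ) / (b : ℝ) ^ n J := by
      rw [hDeq]
      convert vol_inter hb hJ N P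
    have hsub : D0 ⊆ ⋃ x ∈ T, (At b (n J) (N * b ^ (n J - L) + x) \ U) := by
      intro β hβ
      have h1 : β ∈ D J := by
        refine ⟨hβ.1, ?_⟩
        rintro ⟨j, hj1, _, hj3⟩
        exact hβ.2 ⟨j, hj1, hj3⟩
      rw [hDU] at h1
      simp only [Set.mem_iUnion, exists_prop] at h1 ⊢
      obtain ⟨x, hx, hβx⟩ := h1
      exact ⟨x, hx, hβx, hβ.2⟩
    have hfin2 : volume (⋃ x ∈ T, (At b (n J) (N * b ^ (n J - L) + x) \ U)) ≠ ⊤ := by
      refine ne_of_lt ((measure_biUnion_finset_le _ _).trans_lt ?_)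
      refine ENNReal.sum_lt_top.2 fun x _ => ?_
      exact lt_of_le_of_lt (measure_mono Set.sdiff_subset) (lt_top_iff_ne_top.2 (vol_At_ne_top _ _))
    calc volume.real D0 ≤ volume.real (⋃ x ∈ T, (At b (n J) (N * b ^ (n J - L) + x) \ U)) :=
          measureReal_mono hsub hfin2
      _ ≤ ∑ x ∈ T, volume.real (At b (n J) (N * b ^ (n J - L) + x) \ U) :=
          measureReal_biUnion_finset_le _ _
      _ ≤ ∑ x ∈ T, (1 - κ) / (b : ℝ) ^ n J := by
          refine sum_le_sum fun x _ => ?_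
          have hN' : 1 ≤ N * b ^ (n J - L) + x := by
            have : 1 ≤ N * b ^ (n J - L) := Nat.one_le_iff_ne_zero.2 (by
              have : b ^ (n J - L) ≠ 0 := pow_ne_zero _ (by omega)
              positivity)
            omega
          have h1 := h (n J) _ hN' M
          have h2 : volume.real (At b (n J) (N * b ^ (n J - L) + x) ∩ U) +
              volume.real (At b (n J) (N * b ^ (n J - L) + x) \ U) =
              volume.real (At b (n J) (N * b ^ (n J - L) + x)) :=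
            measureReal_inter_add_sdiff hUm (vol_At_ne_top _ _)
          rw [vol_At hb] at h2
          have e : (1 - κ) / (b : ℝ) ^ n J = 1 / (b : ℝ) ^ n J - κ / (b : ℝ) ^ n J := by ring
          rw [e]
          linarith
      _ = (1 - κ) * volume.real (D J) := by
          rw [sum_const, nsmul_eq_mul, hvD]; ring
  -- the limit
  have hanti : Antitone D := by
    intro I J hIJ β hβ
    refine ⟨hβ.1, ?_⟩
    rintro ⟨j, hj1, hj2, hj3⟩
    exact hβ.2 ⟨j, hj1, hj2.trans hIJ, hj3⟩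
  have hInter : ⋂ J, D J = D0 := by
    ext β
    simp only [Set.mem_iInter]
    constructor
    · intro hβ
      refine ⟨(hβ 0).1, ?_⟩
      rintro ⟨j, hj1, hj2⟩
      exact (hβ j).2 ⟨j, hj1, le_rfl, hj2⟩
    · intro hβ J
      refine ⟨hβ.1, ?_⟩
      rintro ⟨j, hj1, _, hj3⟩
      exact hβ.2 ⟨j, hj1, hj3⟩
  have hlim : Tendsto (fun J => volume.real (D J)) atTop (𝓝 (volume.real D0)) := by
    have h1 := tendsto_measure_iInter_atTop (μ := volume) (fun J => (hDm J).nullMeasurableSet) hanti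
      ⟨0, hfin _ Set.sdiff_subset⟩
    rw [hInter] at h1
    exact (ENNReal.tendsto_toReal (hfin _ Set.sdiff_subset)).comp h1
  have hle : volume.real D0 ≤ (1 - κ) * volume.real D0 := by
    refine ge_of_tendsto (hlim.const_mul (1 - κ)) ?_
    filter_upwards [hn.tendsto_atTop.eventually_ge_atTop L] with J hJ
    exact hmain J hJ
  have hz : volume.real D0 = 0 := by
    have h0 : 0 ≤ volume.real D0 := measureReal_nonneg
    nlinarith
  exact (measureReal_eq_zero_iff (hfin _ Set.sdiff_subset)).1 hz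

/-- **Infinitely often, almost everywhere.** -/
theorem io_ae (hb : 2 ≤ b) (hn : StrictMono n) {w v e : ℕ → ℝ} {K : ℝ} (hK : 1 ≤ K)
    (hw : ∀ j, 0 ≤ w j) (hv0 : ∀ j, 0 ≤ v j) (hv : ∀ j, v j ≤ K * (w j + e j)) (he0 : ∀ j, 0 ≤ e j)
    (he : Summable e) (hdiv : ¬ Summable w) (hU : Upp b n S v) (hLo : Low b n S w) :
    ∀ᵐ β : ℝ, 0 < β → ∃ᶠ j in atTop, S j ⌊β * (b : ℝ) ^ n j⌋₊ := by
  have h1 : ∀ L N M : ℕ, ∀ᵐ β : ℝ, 1 ≤ N → β ∈ At b L N → ∃ j, M ≤ j ∧ β ∈ Ev b n S j := by
    intro L N M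
    by_cases hN : 1 ≤ N
    · have h2 := null_of_lower hb hn (S := S) (κ := 1 / (4 * K)) (by positivity)
        (fun L N hN M => lower_union hb hn hK hw hv0 hv he0 he hdiv hU hLo hN M) (L := L) hN M
      filter_upwards [measure_eq_zero_iff_ae_notMem.1 h2] with β hβ _ hA
      by_contra hcon
      exact hβ ⟨hA, hcon⟩
    · exact Eventually.of_forall fun β h => absurd h hN
  have h2 := ae_all_iff.2 fun L => ae_all_iff.2 fun N => ae_all_iff.2 fun M => h1 L N M
  filter_upwards [h2] with β hβ hpos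
  have hbr : (1 : ℝ) < b := by exact_mod_cast (by omega : 1 < b)
  obtain ⟨L, hL⟩ : ∃ L : ℕ, 1 ≤ β * (b : ℝ) ^ L := by
    obtain ⟨L, hL⟩ := pow_unbounded_of_one_lt (1 / β) hbr
    refine ⟨L, ?_⟩
    rw [div_lt_iff₀ hpos] at hL
    linarith
  have hA : β ∈ At b L ⌊β * (b : ℝ) ^ L⌋₊ := (mem_At hb).2 ⟨hpos.le, rfl⟩
  have hN : 1 ≤ ⌊β * (b : ℝ) ^ L⌋₊ := Nat.floor_pos.2 hL
  rw [frequently_atTop]
  intro M
  obtain ⟨j, hj1, hj2⟩ := hβ L _ M hN hA
  exact ⟨j, hj1, hj2.2⟩

end Pool.Agent.H627.FN
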