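import Mathlib
import Pool.Agent.H627.FN.Cnt2
import Pool.Agent.H627.FN.Prob2

set_option autoImplicit false

/-!
# The dichotomy for lacunary exponents
-/

namespace Pool.Agent.H627.FN

open Finset Filter Topology MeasureTheory

/-- lacunary exponents -/
structure Lac (n : ℕ → ℕ) (θ : ℝ) : Prop where
  lt1 : θ < 1
  pos : ∀ j, 0 < n j
  step : ∀ j, (n j : ℝ) ≤ θ * n (j + 1)

variable {n : ℕ → ℕ} {θ : ℝ} {b : ℕ}

lemma Lac.pos_th (h : Lac n θ) : 0 < θ := by
  have h1 := h.step 0
  have h2 : (0 : ℝ) < n 0 := by exact_mod_cast h.pos 0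
  have h3 : (0 : ℝ) < n 1 := by exact_mod_cast h.pos 1
  by_contra hc
  have : θ * n (0 + 1) ≤ 0 := mul_nonpos_of_nonpos_of_nonneg (not_lt.1 hc) (by simpa using h3.le)
  linarith

lemma Lac.mono (h : Lac n θ) : StrictMono n := by
  refine strictMono_nat_of_lt_succ fun j => ?_
  have h1 := h.step j
  have h2 : (0 : ℝ) < n (j + 1) := by exact_mod_cast h.pos (j + 1)
  have h3 : (n j : ℝ) < n (j + 1) := lt_of_le_of_lt h1 (by nlinarith [h.lt1])
  exact_mod_cast h3

lemma Lac.pair (h : Lac n θ) {i j : ℕ} (hij : i < j) : (n i : ℝ) ≤ θ * n j := by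
  obtain ⟨k, rfl⟩ : ∃ k, j = k + 1 := ⟨j - 1, by omega⟩
  have h1 : n i ≤ n k := h.mono.monotone (by omega)
  exact le_trans (by exact_mod_cast h1) (h.step k)

lemma Lac.summable (h : Lac n θ) : Summable (fun j => 1 / (n j : ℝ)) := by
  have hθ := h.pos_th
  have h1 : ∀ j, 1 / (n j : ℝ) ≤ θ ^ j * (1 / (n 0 : ℝ)) := by
    intro j
    induction j with
    | zero => simp
    | succ j ih =>
      have h2 : (0 : ℝ) < n j := by exact_mod_cast h.pos j
      have h3 : (0 : ℝ) < n (j + 1) := by exact_mod_cast h.pos (j + 1)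
      have h4 : 1 / (n (j + 1) : ℝ) ≤ θ * (1 / (n j : ℝ)) := by
        rw [mul_one_div, div_le_div_iff₀ h3 h2, one_mul]
        exact h.step j
      calc 1 / (n (j + 1) : ℝ) ≤ θ * (1 / (n j : ℝ)) := h4
        _ ≤ θ * (θ ^ j * (1 / (n 0 : ℝ))) := mul_le_mul_of_nonneg_left ih hθ.le
        _ = _ := by ring
  refine Summable.of_nonneg_of_le (fun j => by positivity) h1 ?_
  exact (summable_geometric_of_lt_one hθ.le h.lt1).mul_right _

lemma Lac.tendsto (h : Lac n θ) : Tendsto (fun j => (n j : ℝ)) atTop atTop :=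
  tendsto_natCast_atTop_atTop.comp h.mono.tendsto_atTop

/-! ### Divergence -/

/-- truncated exponents -/
noncomputable def tau (n : ℕ → ℕ) (θ : ℝ) (t : ℕ → ℝ) (j : ℕ) : ℝ := min (t j / n j) ((1 - θ) / 4)

lemma tau_nonneg (h : Lac n θ) {t : ℕ → ℝ} (ht : ∀ j, 0 ≤ t j) (j : ℕ) : 0 ≤ tau n θ t j :=
  le_min (div_nonneg (ht j) (Nat.cast_nonneg _)) (by have := h.lt1; linarith)

lemma tau_not_summable (h : Lac n θ) {t : ℕ → ℝ} (ht : ∀ j, 0 ≤ t j)
    (hdiv : ¬ Summable fun j => t j / n j) : ¬ Summable (tau n θ t) := by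
  intro hs
  apply hdiv
  have h1 : ∀ᶠ j in atTop, tau n θ t j < (1 - θ) / 4 :=
    hs.tendsto_atTop_zero.eventually_lt_const (by have := h.lt1; linarith)
  obtain ⟨J, hJ⟩ := eventually_atTop.1 h1
  rw [← summable_nat_add_iff J]
  rw [← summable_nat_add_iff J] at hs
  refine hs.congr fun j => ?_
  have h2 := hJ (j + J) (by omega)
  unfold tau at h2 ⊢
  rcases min_lt_iff.1 h2 with h3 | h3
  · exact min_eq_left h3.le
  · exact absurd h3 (lt_irrefl _)

/-- **Divergence part.** -/
theorem div_part (hb : 2 ≤ b) (h : Lac n θ) {c : ℕ → ℕ}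
    (hc : Tendsto (fun j => (c j : ℝ) / (b : ℝ) ^ n j) atTop (𝓝 0)) {t : ℕ → ℝ} (ht : ∀ j, 0 ≤ t j)
    (hdiv : ¬ Summable fun j => t j / n j) :
    ∀ᵐ β : ℝ, 0 < β → ∃ᶠ j in atTop, Gz ((b : ℝ) ^ t j) (⌊β * (b : ℝ) ^ n j⌋₊ + c j) := by
  classical
  obtain ⟨C, hC, hup⟩ := upper_count
  have hbr : (2 : ℝ) ≤ b := by exact_mod_cast hb
  have hb1 : (1 : ℝ) < b := by linarith
  have hb0 : (0 : ℝ) < b := by linarith
  have hlb : 0 < Real.log b := Real.log_pos hb1
  have hθ1 : 0 < 1 - θ := by have := h.lt1; linarith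
  have hτ0 := tau_nonneg h ht
  set τ := tau n θ t with hτ
  set z : ℕ → ℝ := fun j => (b : ℝ) ^ (τ j * n j) with hz
  have hnpos : ∀ j, (0 : ℝ) < n j := fun j => by exact_mod_cast h.pos j
  have hz1 : ∀ j, 1 ≤ z j := fun j => by
    simp only [hz]
    exact Real.one_le_rpow hb1.le (mul_nonneg (hτ0 j) (hnpos j).le)
  have hlogz : ∀ j, Real.log (z j) = τ j * n j * Real.log b := fun j => by
    simp only [hz]
    exact Real.log_rpow hb0 _
  have hzt : ∀ j, z j ≤ (b : ℝ) ^ t j := fun j => by
    simp only [hz]
    refine Real.rpow_le_rpow_of_exponent_le hb1.le ?_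
    have h1 : τ j ≤ t j / n j := min_le_left _ _
    calc τ j * n j ≤ t j / n j * n j := mul_le_mul_of_nonneg_right h1 (hnpos j).le
      _ = t j := by field_simp [(hnpos j).ne']
  set S : ℕ → ℕ → Prop := fun j x => Gz (z j) (x + c j) with hS
  set v : ℕ → ℝ := fun j => C / (1 - θ) * (τ j + 1 / (n j * Real.log b)) with hv
  set e : ℕ → ℝ := fun j => 1 / (n j * Real.log b) with he
  set w : ℕ → ℝ := fun j => τ j / 12 with hw
  have he0 : ∀ j, 0 ≤ e j := fun j => by
    simp only [he]
    have := hnpos j
    positivity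
  have hes : Summable e := by
    have h1 := h.summable.mul_right (1 / Real.log b)
    refine h1.congr fun j => ?_
    simp only [he]
    have := hnpos j
    field_simp
  have hv0 : ∀ j, 0 ≤ v j := fun j => by
    simp only [hv]
    have h1 := hτ0 j
    have h2 := he0 j
    simp only [he] at h2
    have h3 : 0 ≤ C / (1 - θ) := by positivity
    exact mul_nonneg h3 (add_nonneg h1 h2)
  have hU : Upp b n S v := by
    intro i j hij N
    have hnij := h.mono hij
    set H := b ^ (n j - n i) with hH
    have hH2 : 2 ≤ H := by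
      calc 2 ≤ b := hb
        _ = b ^ 1 := (pow_one b).symm
        _ ≤ b ^ (n j - n i) := Nat.pow_le_pow_right (by omega) (by omega)
    have hHr : (H : ℝ) = (b : ℝ) ^ (n j - n i) := by rw [hH]; push_cast; ring
    have hHr' : (H : ℝ) = (b : ℝ) ^ ((n j : ℝ) - n i) := by
      rw [hHr, ← Real.rpow_natCast, Nat.cast_sub hnij.le]
    have hlogH : Real.log H = ((n j : ℝ) - n i) * Real.log b := by
      rw [hHr']
      exact Real.log_rpow hb0 _
    have hpair := h.pair hij
    have hgap : (1 - θ) * n j ≤ (n j : ℝ) - n i := by linarith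
    have hzH : z j ^ 2 ≤ H := by
      rw [hHr']
      simp only [hz]
      rw [← Real.rpow_natCast, ← Real.rpow_mul hb0.le]
      refine Real.rpow_le_rpow_of_exponent_le hb1.le ?_
      have h1 : τ j ≤ (1 - θ) / 4 := min_le_right _ _
      have h2 : τ j * n j ≤ (1 - θ) / 4 * n j := mul_le_mul_of_nonneg_right h1 (hnpos j).le
      have h3 : 0 < (1 - θ) * n j := mul_pos hθ1 (hnpos j)
      push_cast
      linarith
    have h1 := hup (N * H + c j) H (z j) hH2 (hz1 j) hzH
    have h2 : (range H).filter (fun x => S j (N * H + x)) =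
        (range H).filter (fun x => Gz (z j) (N * H + c j + x)) := by
      refine filter_congr fun x _ => ?_
      simp only [hS]
      rw [show N * H + x + c j = N * H + c j + x by ring]
    have h2' : ((range H).filter (fun x => S j (N * H + x))).card =
        ((range H).filter (fun x => Gz (z j) (N * H + c j + x))).card := by
      convert congrArg Finset.card h2
    have h3 : (((range H).filter (fun x => S j (N * H + x))).card : ℝ) ≤
        C * (H / Real.log H) * (1 + Real.log (z j)) := by
      rw [h2']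
      convert h1
    refine le_trans (by convert h3) ?_
    rw [hlogH, hlogz, ← hHr]
    simp only [hv]
    have h4 : (0 : ℝ) < (n j : ℝ) - n i := lt_of_lt_of_le (mul_pos hθ1 (hnpos j)) hgap
    have h5 := hnpos j
    have hH0 : (0 : ℝ) < H := by exact_mod_cast (by omega : 0 < H)
    have h6 : 0 ≤ 1 + τ j * n j * Real.log b := by
      have := hτ0 j
      positivity
    calc C * (H / (((n j : ℝ) - n i) * Real.log b)) * (1 + τ j * n j * Real.log b) ≤
        C * (H / (((1 - θ) * n j) * Real.log b)) * (1 + τ j * n j * Real.log b) := by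
          refine mul_le_mul_of_nonneg_right ?_ h6
          refine mul_le_mul_of_nonneg_left ?_ (by linarith)
          refine div_le_div_of_nonneg_left hH0.le (by positivity) ?_
          exact mul_le_mul_of_nonneg_right hgap hlb.le
      _ = _ := by field_simp; ring
  have hLo : Low b n S w := by
    intro L N hN
    obtain ⟨x1, hx1, hlow⟩ := lower_count hN
    -- eventual conditions
    have e1 : ∀ᶠ j in atTop, (c j : ℝ) / (b : ℝ) ^ n j < 1 / (b : ℝ) ^ L :=
      hc.eventually_lt_const (by positivity)
    have e2 : ∀ᶠ j in atTop, L ≤ n j := h.mono.tendsto_atTop.eventually_ge_atTop L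
    have e3 : ∀ᶠ j in atTop, (Real.log (N + 1)) / Real.log b ≤ (n j : ℝ) :=
      h.tendsto.eventually_ge_atTop _
    have e4 : ∀ᶠ j in atTop, 2 * (L + Real.log x1 / Real.log b) ≤ (n j : ℝ) :=
      h.tendsto.eventually_ge_atTop _
    filter_upwards [e1, e2, e3, e4] with j h1 h2 h3 h4
    set H := b ^ (n j - L) with hH
    have hHr : (H : ℝ) = (b : ℝ) ^ (n j - L) := by rw [hH]; push_cast; ring
    have hHr' : (H : ℝ) = (b : ℝ) ^ ((n j : ℝ) - L) := by
      rw [hHr, ← Real.rpow_natCast, Nat.cast_sub h2]
    have hlogH : Real.log H = ((n j : ℝ) - L) * Real.log b := by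
      rw [hHr']
      exact Real.log_rpow hb0 _
    have hH0 : (0 : ℝ) < H := by rw [hHr]; positivity
    have hcH : c j ≤ H := by
      have h5 : (c j : ℝ) ≤ H := by
        rw [hHr]
        rw [div_lt_div_iff₀ (by positivity) (by positivity), b_split hb h2] at h1
        have h6 := b_pos hb L
        nlinarith
      exact_mod_cast h5
    have hτ4 : τ j * n j ≤ n j / 4 := by
      have h5 : τ j ≤ (1 - θ) / 4 := min_le_right _ _
      have h6 := h.pos_th
      have h7 := hnpos j
      nlinarith
    have hx10 : 0 < x1 := by linarith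
    have hlx : 0 ≤ Real.log x1 := Real.log_nonneg hx1
    have hlx' : 0 ≤ Real.log x1 / Real.log b := by positivity
    have hL0 : (0 : ℝ) ≤ L := Nat.cast_nonneg L
    have hzx : z j * x1 ≤ H := by
      have h5 : x1 = (b : ℝ) ^ (Real.log x1 / Real.log b) := by
        rw [Real.rpow_def_of_pos hb0, mul_div_cancel₀ _ hlb.ne', Real.exp_log hx10]
      rw [hHr']
      conv_lhs => rw [h5]
      simp only [hz]
      rw [← Real.rpow_add hb0]
      refine Real.rpow_le_rpow_of_exponent_le hb1.le ?_
      linarith
    have hzH : z j ^ 2 ≤ H := by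
      rw [hHr']
      simp only [hz]
      rw [← Real.rpow_natCast, ← Real.rpow_mul hb0.le]
      refine Real.rpow_le_rpow_of_exponent_le hb1.le ?_
      push_cast
      linarith
    have h5 := hlow H (c j) (z j) (hz1 j) hzx hzH hcH
    have h6 : (range H).filter (fun x => S j (N * H + x)) =
        (range H).filter (fun x => Gz (z j) (N * H + c j + x)) := by
      refine filter_congr fun x _ => ?_
      simp only [hS]
      rw [show N * H + x + c j = N * H + c j + x by ring]
    have h6' : ((range H).filter (fun x => S j (N * H + x))).card =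
        ((range H).filter (fun x => Gz (z j) (N * H + c j + x))).card := by
      convert congrArg Finset.card h6
    have h7 : H / (6 * Real.log ((N + 1) * H)) * Real.log (z j) ≤
        (((range H).filter (fun x => S j (N * H + x))).card : ℝ) := by
      rw [h6']
      convert h5
    refine le_trans ?_ (by convert h7)
    rw [hlogz, ← hHr]
    simp only [hw]
    have hN1 : (0 : ℝ) < (N : ℝ) + 1 := by positivity
    have h8 : Real.log ((N + 1) * H) ≤ 2 * (n j * Real.log b) := by
      rw [Real.log_mul hN1.ne' hH0.ne', hlogH]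
      rw [div_le_iff₀ hlb] at h3
      have : 0 ≤ (L : ℝ) * Real.log b := by positivity
      linarith
    have hnj := hnpos j
    have hLn : (L : ℝ) ≤ n j := by exact_mod_cast h2
    have hNr : (1 : ℝ) ≤ N := by exact_mod_cast hN
    have h9 : 0 < Real.log ((N + 1) * H) := by
      rw [Real.log_mul hN1.ne' hH0.ne', hlogH]
      have h10 : 0 < Real.log ((N : ℝ) + 1) := Real.log_pos (by linarith)
      have h11 : 0 ≤ ((n j : ℝ) - L) * Real.log b := mul_nonneg (by linarith) hlb.le
      linarith
    calc τ j / 12 * H = H / (6 * (2 * (n j * Real.log b))) * (τ j * n j * Real.log b) := by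
          field_simp; ring
      _ ≤ H / (6 * Real.log ((N + 1) * H)) * (τ j * n j * Real.log b) := by
          have h12 := hτ0 j
          refine mul_le_mul_of_nonneg_right ?_ (by positivity)
          exact div_le_div_of_nonneg_left hH0.le (by positivity) (by linarith)
  have hw0 : ∀ j, 0 ≤ w j := fun j => by simp only [hw]; have := hτ0 j; positivity
  have hwdiv : ¬ Summable w := by
    intro hs
    refine tau_not_summable h ht hdiv ((hs.mul_right 12).congr fun j => ?_)
    simp only [hw]
    ring
  have hCθ : 0 < C / (1 - θ) := by positivity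
  have hCθ1 : 1 ≤ C / (1 - θ) := by
    rw [le_div_iff₀ hθ1]
    have := h.pos_th
    linarith
  have hvK : ∀ j, v j ≤ 12 * (C / (1 - θ)) * (w j + e j) := fun j => by
    simp only [hv, hw, he]
    have h1 := he0 j
    simp only [he] at h1
    have h2 : 0 ≤ C / (1 - θ) * (1 / (n j * Real.log b)) := mul_nonneg hCθ.le h1
    nlinarith
  have hio := io_ae hb h.mono (S := S) (K := 12 * (C / (1 - θ))) (by linarith) hw0 hv0 hvK he0 hes
    hwdiv hU hLo
  filter_upwards [hio] with β hβ hpos
  refine (hβ hpos).mono fun j hj => ?_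
  obtain ⟨s, q, h1, h2, h3, h4⟩ := hj
  exact ⟨s, q, h1, h2.trans (hzt j), h3, h4⟩

/-! ### Convergence -/

lemma bigN_anti {k l : ℕ} (hkl : k ≤ l) (x : ℕ) : bigN l x ≤ bigN k x := by
  unfold bigN
  rw [← List.countP_eq_length_filter, ← List.countP_eq_length_filter]
  refine List.countP_mono_left fun p _ hp => ?_
  simp only [decide_eq_true_eq] at hp ⊢
  omega

/-- **Convergence part.** -/
theorem conv_part (hb : 2 ≤ b) (h : Lac n θ) {c : ℕ → ℕ}
    (hc : Tendsto (fun j => (c j : ℝ) / (b : ℝ) ^ n j) atTop (𝓝 0)) {t : ℕ → ℝ} (ht : ∀ j, 0 ≤ t j)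
    (hsum : Summable fun j => t j / n j) :
    ∀ᵐ β : ℝ, 0 < β → ∀ᶠ j in atTop,
      ¬ bigN ⌊(b : ℝ) ^ t j⌋₊ (⌊β * (b : ℝ) ^ n j⌋₊ + c j) ≤ 1 := by
  classical
  obtain ⟨C, hC, hcnt⟩ := conv_count
  have hbr : (2 : ℝ) ≤ b := by exact_mod_cast hb
  have hb1 : (1 : ℝ) < b := by linarith
  have hb0 : (0 : ℝ) < b := by linarith
  have hlb : 0 < Real.log b := Real.log_pos hb1
  have hnpos : ∀ j, (0 : ℝ) < n j := fun j => by exact_mod_cast h.pos j
  set S : ℕ → ℕ → Prop := fun j x => bigN ⌊(b : ℝ) ^ t j⌋₊ (x + c j) ≤ 1 with hS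
  have hwin : ∀ u : ℕ, ∀ᵐ β ∂(volume.restrict (At b 0 u)), ∀ᶠ j in atTop, β ∉ Ev b n S j := by
    intro u
    have e1 : ∀ᶠ j in atTop, (c j : ℝ) / (b : ℝ) ^ n j < 1 := hc.eventually_lt_const one_pos
    have e2 : ∀ᶠ j in atTop, 2 ≤ n j := h.mono.tendsto_atTop.eventually_ge_atTop 2
    obtain ⟨J, hJ⟩ := eventually_atTop.1 (e1.and e2)
    -- bound of one volume
    have hvol : ∀ j, J ≤ j → volume.real (At b 0 u ∩ Ev b n S j) ≤
        1 / (n j : ℝ) + C * (u + 2) * (t j / n j + 1 / n j) := by
      intro j hj
      obtain ⟨h1, h2⟩ := hJ j hj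
      have h3 : volume.real (At b 0 u ∩ Ev b n S j) = _ := vol_inter hb (Nat.zero_le (n j)) u (S j)
      rw [h3, Nat.sub_zero]
      set H := b ^ n j with hH
      have hHr : (H : ℝ) = (b : ℝ) ^ n j := by rw [hH]; push_cast; ring
      have hH4 : 4 ≤ H := by
        calc 4 = 2 ^ 2 := by norm_num
          _ ≤ b ^ 2 := Nat.pow_le_pow_left hb 2
          _ ≤ b ^ n j := Nat.pow_le_pow_right (by omega) h2
      have hH0 : (0 : ℝ) < H := by exact_mod_cast (by omega : 0 < H)
      have hcH : c j ≤ H := by
        rw [div_lt_one (b_pos hb _), ← hHr] at h1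
        exact_mod_cast h1.le
      set k := max ⌊(b : ℝ) ^ t j⌋₊ 2 with hk
      set X := (u + 2) * H with hX
      have hX4 : 4 ≤ X := by nlinarith
      have hcard : ((range H).filter (fun x => S j (u * H + x))).card ≤
          1 + ((Icc 1 X).filter (fun x => bigN k x ≤ 1)).card := by
        have hsub : ((range H).filter (fun x => S j (u * H + x))).image (fun x => u * H + x + c j) ⊆
            {0} ∪ (Icc 1 X).filter (fun x => bigN k x ≤ 1) := by
          intro y hy
          rw [mem_image] at hy
          obtain ⟨x, hx, rfl⟩ := hy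
          rw [mem_filter, mem_range] at hx
          rw [mem_union, mem_singleton, mem_filter, mem_Icc]
          rcases Nat.eq_zero_or_pos (u * H + x + c j) with h4 | h4
          · left; exact h4
          · right
            refine ⟨⟨h4, ?_⟩, ?_⟩
            · rw [hX]
              have : (u + 2) * H = u * H + H + H := by ring
              omega
            · have h5 : bigN ⌊(b : ℝ) ^ t j⌋₊ (u * H + x + c j) ≤ 1 := hx.2
              exact (bigN_anti (le_max_left _ _) _).trans h5
        have h4 : ((range H).filter (fun x => S j (u * H + x))).card =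
            (((range H).filter (fun x => S j (u * H + x))).image (fun x => u * H + x + c j)).card := by
          rw [card_image_of_injective]
          intro x y hxy
          simp only at hxy
          omega
        rw [h4]
        refine (card_le_card hsub).trans ((card_union_le _ _).trans ?_)
        simp
      have h5 := hcnt k X (le_max_right _ _) hX4
      have hXr : (X : ℝ) = (u + 2) * H := by rw [hX]; push_cast; ring
      have hu0 : (0 : ℝ) ≤ u := Nat.cast_nonneg u
      have hlX : n j * Real.log b ≤ Real.log X := by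
        have h6 : Real.log H = n j * Real.log b := by rw [hHr, Real.log_pow]
        rw [← h6]
        refine Real.log_le_log hH0 ?_
        rw [hXr]
        nlinarith
      have hlk : Real.log k ≤ (t j + 1) * Real.log b := by
        have h6 : (k : ℝ) ≤ (b : ℝ) ^ (t j + 1) := by
          rw [hk]
          push_cast
          refine max_le ?_ ?_
          · refine (Nat.floor_le (by positivity)).trans ?_
            exact Real.rpow_le_rpow_of_exponent_le hb1.le (by linarith)
          · calc (2 : ℝ) ≤ b := hbr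
              _ = (b : ℝ) ^ (1 : ℝ) := (Real.rpow_one _).symm
              _ ≤ _ := Real.rpow_le_rpow_of_exponent_le hb1.le (by linarith [ht j])
        have h7 : (0 : ℝ) < k := by
          have : 2 ≤ k := le_max_right _ _
          exact_mod_cast (by omega : 0 < k)
        have h8 := Real.log_le_log h7 h6
        rwa [Real.log_rpow hb0] at h8
      have hnl : 0 < n j * Real.log b := mul_pos (hnpos j) hlb
      have hk2 : (2 : ℝ) ≤ k := by
        have : 2 ≤ k := le_max_right _ _
        exact_mod_cast this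
      have hlk0 : 0 ≤ Real.log k := Real.log_nonneg (by linarith)
      have h9 : (((Icc 1 X).filter (fun x => bigN k x ≤ 1)).card : ℝ) ≤
          C * (u + 2) * (t j / n j + 1 / n j) * H := by
        refine h5.trans ?_
        calc C * (X / Real.log X) * Real.log k ≤
            C * (X / (n j * Real.log b)) * ((t j + 1) * Real.log b) := by
              refine mul_le_mul ?_ hlk hlk0 (by positivity)
              refine mul_le_mul_of_nonneg_left ?_ (by linarith)
              exact div_le_div_of_nonneg_left (by positivity) hnl hlX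
          _ = _ := by
              rw [hXr]
              have := hnpos j
              field_simp
      have h10 : (n j : ℝ) ≤ H := by
        have : n j ≤ b ^ n j := (Nat.lt_pow_self (by omega)).le
        rw [hH]
        exact_mod_cast this
      have h11 : 1 ≤ 1 / (n j : ℝ) * H := by
        rw [one_div_mul_eq_div, le_div_iff₀ (hnpos j), one_mul]
        exact h10
      rw [← hHr, div_le_iff₀ hH0]
      have h12 : (((range H).filter (fun x => S j (u * H + x))).card : ℝ) ≤
          1 + (((Icc 1 X).filter (fun x => bigN k x ≤ 1)).card : ℝ) := by exact_mod_cast hcard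
      have h13 : (((range H).filter (fun x => S j (u * H + x))).card : ℝ) ≤
          (1 / (n j : ℝ) + C * (u + 2) * (t j / n j + 1 / n j)) * H := by
        rw [add_mul]
        exact h12.trans (add_le_add h11 h9)
      refine le_trans (le_of_eq ?_) h13
      congr!
    -- summability
    have hs1 : Summable (fun j => 1 / (n j : ℝ) + C * (u + 2) * (t j / n j + 1 / n j)) :=
      h.summable.add ((hsum.add h.summable).mul_left _)
    have hs2 : Summable (fun j => volume.real (At b 0 u ∩ Ev b n S j)) := by
      rw [← summable_nat_add_iff J]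
      rw [← summable_nat_add_iff J] at hs1
      exact Summable.of_nonneg_of_le (fun j => measureReal_nonneg) (fun j => hvol (j + J) (by omega)) hs1
    refine ae_eventually_notMem ?_
    have h4 : ∀ j, (volume.restrict (At b 0 u)) (Ev b n S j) =
        ENNReal.ofReal (volume.real (At b 0 u ∩ Ev b n S j)) := by
      intro j
      rw [Measure.restrict_apply (measurable_Ev hb n S j), Set.inter_comm, measureReal_def,
        ENNReal.ofReal_toReal (measure_ne_top_of_subset Set.inter_subset_left (vol_At_ne_top 0 u))]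
    rw [tsum_congr h4, ← ENNReal.ofReal_tsum_of_nonneg (fun j => measureReal_nonneg) hs2]
    exact ENNReal.ofReal_ne_top
  have hall : ∀ᵐ β : ℝ, ∀ u : ℕ, β ∈ At b 0 u → ∀ᶠ j in atTop, β ∉ Ev b n S j :=
    ae_all_iff.2 fun u => (ae_restrict_iff' (measurable_At 0 u)).1 (hwin u)
  filter_upwards [hall] with β hβ hpos
  have h1 := hβ ⌊β * (b : ℝ) ^ 0⌋₊ ((mem_At hb).2 ⟨hpos.le, rfl⟩)
  refine h1.mono fun j hj hcon => hj ⟨hpos.le, hcon⟩

end Pool.Agent.H627.FN
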