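import Mathlib
import Pool.Agent.H447R2.ML.R1
import Pool.Agent.TH888.R.Mean

set_option autoImplicit false

/-!
# The tail law for the dilates of the Fermat numbers
-/

namespace Pool.Agent.H627.FN

open Finset Filter Topology MeasureTheory
open Pool.Agent.H447R2.ML (Sh pair_bound_sh)
open Pool.Agent.H305R2 (roughPart LL ff NN measurable_ff ff_nonneg ff_le_one)
open Pool.Agent.TH888.R (LL_rate)

/-- the amplitudes `exp t`, `b0 < t ≤ b0 + 1`, for which the `2^(m+k)`-rough part of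
`⌊exp t F_m⌋` is prime -/
def EvF (k : ℕ) (b0 : ℝ) (m : ℕ) : Set ℝ :=
  {t | t ∈ Set.Ioc b0 (b0 + 1) ∧ (roughPart (2 ^ (m + k)) ⌊Real.exp t * Nat.fermatNumber m⌋₊).Prime}

/-- logarithm of the Fermat number -/
noncomputable def lF (m : ℕ) : ℝ := Real.log (Nat.fermatNumber m)

lemma fer_pos (m : ℕ) : (0 : ℝ) < Nat.fermatNumber m := by
  have : 0 < Nat.fermatNumber m := Nat.succ_pos _
  exact_mod_cast this

lemma measurable_EvF (k : ℕ) (b0 : ℝ) (m : ℕ) : MeasurableSet (EvF k b0 m) := by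
  have h1 : Measurable (fun t : ℝ => ⌊Real.exp t * Nat.fermatNumber m⌋₊) :=
    Nat.measurable_floor.comp (Real.measurable_exp.mul_const _)
  exact measurableSet_Ioc.inter (h1 (MeasurableSet.of_discrete (s := {x : ℕ |
    (roughPart (2 ^ (m + k)) x).Prime})))

/-- the indicator of the event, almost everywhere -/
lemma ind_ae (k : ℕ) (b0 : ℝ) (m : ℕ) : ∀ᵐ t : ℝ, t ∈ Set.Ioc b0 (b0 + 1) →
    (EvF k b0 m).indicator (fun _ => (1 : ℝ)) t = ff (2 ^ (m + k)) (t + lF m) := by
  have hnull : volume (⋃ x : ℕ, {t : ℝ | Real.exp t * Nat.fermatNumber m = x}) = 0 := by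
    refine Set.Countable.measure_zero ?_ volume
    refine Set.countable_iUnion fun x => Set.Subsingleton.countable ?_
    intro s hs t ht
    simp only [Set.mem_ofPred_eq] at hs ht
    exact Real.exp_injective (mul_right_cancel₀ (fer_pos m).ne' (hs.trans ht.symm))
  filter_upwards [measure_eq_zero_iff_ae_notMem.1 hnull] with t ht htI
  have h1 : ∀ x : ℕ, Real.exp t * Nat.fermatNumber m ≠ x := by
    intro x hx
    exact ht (Set.mem_iUnion.2 ⟨x, hx⟩)
  have h2 : Real.exp (t + lF m) = Real.exp t * Nat.fermatNumber m := by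
    rw [Real.exp_add]
    unfold lF
    rw [Real.exp_log (fer_pos m)]
  have h3 : NN (t + lF m) = ⌊Real.exp t * Nat.fermatNumber m⌋₊ := by
    unfold NN
    rw [h2]
    set x := Real.exp t * Nat.fermatNumber m with hx
    have hx0 : 0 ≤ x := by
      have := fer_pos m
      positivity
    have h4 : (⌊x⌋₊ : ℝ) < x := lt_of_le_of_ne (Nat.floor_le hx0) (fun h => h1 _ h.symm)
    have h5 : ⌈x⌉₊ = ⌊x⌋₊ + 1 := by
      rw [Nat.ceil_eq_iff (by omega)]
      refine ⟨by simpa using h4, ?_⟩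
      push_cast
      exact (Nat.lt_floor_add_one x).le
    rw [h5]
    omega
  unfold ff
  rw [h3]
  by_cases h : (roughPart (2 ^ (m + k)) ⌊Real.exp t * Nat.fermatNumber m⌋₊).Prime
  · rw [if_pos h, Set.indicator_of_mem (show t ∈ EvF k b0 m from ⟨htI, h⟩)]
  · rw [if_neg h, Set.indicator_of_notMem (fun h' => h h'.2)]

lemma EvF_ne_top (k : ℕ) (b0 : ℝ) (m : ℕ) : volume (EvF k b0 m) ≠ ⊤ :=
  measure_ne_top_of_subset (fun _ h => h.1) (by simp : volume (Set.Ioc b0 (b0 + 1)) ≠ ⊤)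

/-- the probability is the local mean -/
lemma vol_EvF (k : ℕ) (b0 : ℝ) (m : ℕ) : volume.real (EvF k b0 m) = LL (2 ^ (m + k)) (b0 + lF m) := by
  have h1 : volume.real (EvF k b0 m) =
      ∫ t in Set.Ioc b0 (b0 + 1), (EvF k b0 m).indicator (fun _ => (1 : ℝ)) t := by
    rw [setIntegral_indicator (measurable_EvF k b0 m)]
    have : Set.Ioc b0 (b0 + 1) ∩ EvF k b0 m = EvF k b0 m :=
      Set.inter_eq_right.2 fun _ h => h.1
    rw [this]
    simp
  have h2 : ∫ t in Set.Ioc b0 (b0 + 1), (EvF k b0 m).indicator (fun _ => (1 : ℝ)) t =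
      ∫ t in Set.Ioc b0 (b0 + 1), ff (2 ^ (m + k)) (t + lF m) :=
    setIntegral_congr_ae measurableSet_Ioc (ind_ae k b0 m)
  rw [h1, h2]
  unfold LL
  rw [← intervalIntegral.integral_of_le (by linarith), ← intervalIntegral.integral_of_le (by linarith),
    intervalIntegral.integral_comp_add_right (fun t => ff (2 ^ (m + k)) t)]
  congr 1
  ring

/-- the joint probability -/
lemma vol_pair (k : ℕ) (b0 : ℝ) (m m' : ℕ) : volume.real (EvF k b0 m ∩ EvF k b0 m') =
    ∫ t in Set.Ioc b0 (b0 + 1), ff (2 ^ (m + k)) (t + lF m) * ff (2 ^ (m' + k)) (t + lF m') := by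
  have h1 : volume.real (EvF k b0 m ∩ EvF k b0 m') =
      ∫ t in Set.Ioc b0 (b0 + 1), (EvF k b0 m ∩ EvF k b0 m').indicator (fun _ => (1 : ℝ)) t := by
    rw [setIntegral_indicator ((measurable_EvF k b0 m).inter (measurable_EvF k b0 m'))]
    have : Set.Ioc b0 (b0 + 1) ∩ (EvF k b0 m ∩ EvF k b0 m') = EvF k b0 m ∩ EvF k b0 m' :=
      Set.inter_eq_right.2 fun _ h => h.1.1
    rw [this]
    simp
  rw [h1]
  refine setIntegral_congr_ae measurableSet_Ioc ?_
  filter_upwards [ind_ae k b0 m, ind_ae k b0 m'] with t h2 h3 ht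
  rw [← h2 ht, ← h3 ht]
  by_cases h4 : t ∈ EvF k b0 m <;> by_cases h5 : t ∈ EvF k b0 m' <;> simp [Set.indicator, h4, h5]

lemma lF_bounds (m : ℕ) : (2 : ℝ) ^ m * Real.log 2 ≤ lF m ∧
    lF m ≤ (2 : ℝ) ^ m * Real.log 2 + 1 / (2 : ℝ) ^ (2 ^ m) := by
  have h1 : (Nat.fermatNumber m : ℝ) = (2 : ℝ) ^ (2 ^ m) + 1 := by
    unfold Nat.fermatNumber; push_cast; ring
  have h2 : Real.log ((2 : ℝ) ^ (2 ^ m)) = (2 : ℝ) ^ m * Real.log 2 := by
    rw [Real.log_pow]; push_cast; ring
  have hp : (0 : ℝ) < (2 : ℝ) ^ (2 ^ m) := by positivity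
  unfold lF
  rw [h1]
  constructor
  · rw [← h2]
    exact Real.log_le_log hp (by linarith)
  · have h3 : (2 : ℝ) ^ (2 ^ m) + 1 = (2 : ℝ) ^ (2 ^ m) * (1 + 1 / (2 : ℝ) ^ (2 ^ m)) := by
      field_simp
    rw [h3, Real.log_mul hp.ne' (by positivity), h2]
    have h4 := Real.log_le_sub_one_of_pos (show 0 < 1 + 1 / (2 : ℝ) ^ (2 ^ m) by positivity)
    linarith

/-- the value of the parameter -/
noncomputable def aa (k : ℕ) : ℝ := Real.log 2 / 2 ^ k

lemma aa_pos (k : ℕ) : 0 < aa k := div_pos (Real.log_pos (by norm_num)) (by positivity)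

lemma aa_mul (k m : ℕ) : aa k * ((2 ^ (m + k) : ℕ) : ℝ) = (2 : ℝ) ^ m * Real.log 2 := by
  unfold aa
  push_cast
  rw [pow_add]
  field_simp

/-- the weight -/
lemma weight_eq (k m : ℕ) : Real.log ((2 ^ (m + k) : ℕ) : ℝ) / ((2 ^ (m + k) : ℕ) : ℝ) =
    ((m : ℝ) + k) * Real.log 2 / (2 ^ m * 2 ^ k) := by
  push_cast
  rw [Real.log_pow, pow_add]
  push_cast
  ring

/-- **One index.** -/
theorem one_index (k : ℕ) (b0 : ℝ) : ∃ K : ℝ, 0 < K ∧ ∀ m : ℕ,
    |volume.real (EvF k b0 m) - Real.exp Real.eulerMascheroniConstant * ((m : ℝ) + k) / 2 ^ m| ≤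
      K / 2 ^ m := by
  obtain ⟨K, hK, hev⟩ := LL_rate (aa_pos k) (|b0| + 1)
  set G := Real.exp Real.eulerMascheroniConstant with hG
  have hG0 : 0 < G := Real.exp_pos _
  have ht : Tendsto (fun m : ℕ => 2 ^ (m + k)) atTop atTop := by
    have h1 : Tendsto (fun m : ℕ => 2 ^ m) atTop atTop := tendsto_pow_atTop_atTop_of_one_lt (by norm_num)
    exact h1.comp (tendsto_add_atTop_nat k)
  obtain ⟨m0, hm0⟩ := eventually_atTop.1 (ht.eventually hev)
  refine ⟨K + 2 ^ m0 * (1 + G * (m0 + k)), by positivity, fun m => ?_⟩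
  rcases le_or_gt m0 m with hm | hm
  · have h1 := hm0 m hm (b0 + lF m) (by
      rw [aa_mul]
      obtain ⟨h2, h3⟩ := lF_bounds m
      have h4 : 1 / (2 : ℝ) ^ (2 ^ m) ≤ 1 := by
        rw [div_le_one (by positivity)]
        exact one_le_pow₀ (by norm_num)
      have h5 := abs_le.1 (le_refl |b0|)
      rw [abs_le]
      constructor <;> linarith)
    rw [vol_EvF]
    have e : G / aa k * (Real.log ((2 ^ (m + k) : ℕ) : ℝ) / ((2 ^ (m + k) : ℕ) : ℝ)) =
        G * ((m : ℝ) + k) / 2 ^ m := by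
      rw [weight_eq]
      unfold aa
      have : Real.log 2 ≠ 0 := (Real.log_pos (by norm_num)).ne'
      field_simp
    rw [e] at h1
    refine h1.trans ?_
    have h6 : ((2 ^ (m + k) : ℕ) : ℝ) = 2 ^ m * 2 ^ k := by push_cast; rw [pow_add]
    rw [h6]
    have h7 : (1 : ℝ) ≤ 2 ^ k := one_le_pow₀ (by norm_num)
    calc K / ((2 : ℝ) ^ m * 2 ^ k) ≤ K / (2 ^ m * 1) := by gcongr
      _ = K / 2 ^ m := by rw [mul_one]
      _ ≤ _ := by
        refine div_le_div_of_nonneg_right ?_ (by positivity)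
        have : 0 ≤ (2 : ℝ) ^ m0 * (1 + G * (m0 + k)) := by positivity
        linarith
  · have h1 : volume.real (EvF k b0 m) ≤ 1 := by
      have h2 := measureReal_mono (μ := volume) (fun _ h => h.1 : EvF k b0 m ⊆ Set.Ioc b0 (b0 + 1))
        (by simp)
      rw [Real.volume_real_Ioc_of_le (by linarith)] at h2
      linarith
    have h0 : 0 ≤ volume.real (EvF k b0 m) := measureReal_nonneg
    have h2 : G * ((m : ℝ) + k) / 2 ^ m ≤ G * (m0 + k) := by
      refine (div_le_self (by positivity) (one_le_pow₀ (by norm_num))).trans ?_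
      have : (m : ℝ) ≤ m0 := by exact_mod_cast hm.le
      gcongr
    have h3 : 0 ≤ G * ((m : ℝ) + k) / 2 ^ m := by positivity
    have h4 : 1 + G * (m0 + k) ≤ (K + 2 ^ m0 * (1 + G * (m0 + k))) / 2 ^ m := by
      rw [le_div_iff₀ (by positivity)]
      have h5 : (2 : ℝ) ^ m ≤ 2 ^ m0 := pow_le_pow_right₀ (by norm_num) hm.le
      have h6 : 0 ≤ 1 + G * (m0 + k) := by positivity
      nlinarith
    rw [abs_le]
    constructor <;> linarith

lemma sh_fermat (k : ℕ) (a0 a1 : ℝ) : ∀ᶠ m : ℕ in atTop,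
    Sh (aa k) a0 a1 (2 ^ (m + k)) (fun t => t + lF m) (fun _ => 1) := by
  have h0 : ∀ᶠ m : ℕ in atTop, m + k ≤ 2 ^ m := by
    have h1 : Tendsto (fun m : ℕ => ((m : ℝ) + k) / 2 ^ m) atTop (𝓝 0) := by
      have h2 : Tendsto (fun m : ℕ => (m : ℝ) ^ 1 / 2 ^ m) atTop (𝓝 0) :=
        tendsto_pow_const_div_const_pow_of_one_lt 1 (by norm_num)
      have h3 : Tendsto (fun m : ℕ => (k : ℝ) / 2 ^ m) atTop (𝓝 0) :=
        (tendsto_pow_atTop_atTop_of_one_lt (by norm_num : (1 : ℝ) < 2)).const_div_atTop _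
      have h4 := h2.add h3
      rw [add_zero] at h4
      refine h4.congr fun m => ?_
      rw [pow_one]
      ring
    filter_upwards [h1.eventually_lt_const one_pos] with m hm
    rw [div_lt_one (by positivity)] at hm
    exact_mod_cast hm.le
  filter_upwards [h0] with m hm
  refine ⟨fun t _ => ?_, fun t _ => ?_, fun t _ => ?_⟩
  · rw [aa_mul]
    obtain ⟨h2, h3⟩ := lF_bounds m
    have h4 : 1 / (2 : ℝ) ^ (2 ^ m) ≤ 1 / ((2 ^ (m + k) : ℕ) : ℝ) := by
      push_cast
      refine one_div_le_one_div_of_le (by positivity) ?_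
      exact pow_le_pow_right₀ (by norm_num) hm
    rw [abs_le]
    constructor
    · have : 0 ≤ 1 / ((2 ^ (m + k) : ℕ) : ℝ) := by positivity
      linarith
    · linarith
  · exact (hasDerivAt_id t).add_const _
  · rw [sub_self, abs_zero]
    positivity

/-- **Pairs.** -/
theorem pair_index (k : ℕ) (b0 : ℝ) : ∃ K : ℝ, 0 < K ∧ ∃ m0 : ℕ, ∀ m m' : ℕ, m0 ≤ m → m < m' →
    volume.real (EvF k b0 m ∩ EvF k b0 m') ≤
      K * (((m : ℝ) + k) / 2 ^ m) * (((m' : ℝ) + k) / 2 ^ m') := by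
  obtain ⟨K, hK, P, hP⟩ := pair_bound_sh (a := aa k) (a0 := b0 - 1) (a1 := b0 + 2) (b0 := b0)
    (b1 := b0 + 1) (aa_pos k) (by linarith) (by linarith)
  have hl2 : 0 < Real.log 2 := Real.log_pos (by norm_num)
  have hgap : ∀ᶠ q : ℕ in atTop, 64 / aa k * (Real.log q * Real.log (Real.log q)) ≤ q / 2 := by
    have hak := aa_pos k
    have h1 : ∀ᶠ x : ℝ in atTop, 64 / aa k * (Real.log x * Real.log (Real.log x)) ≤ x / 2 := by
      have h2 : ∀ᶠ x : ℝ in atTop, (Real.log x) ^ 2 ≤ 1 / (2 * (64 / aa k)) * x := by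
        have h3 := (Real.isLittleO_pow_log_id_atTop (n := 2)).bound
          (show (0 : ℝ) < 1 / (2 * (64 / aa k)) by positivity)
        filter_upwards [h3, eventually_gt_atTop 0] with x hx hx0
        rw [Real.norm_eq_abs, Real.norm_eq_abs, abs_of_nonneg (by positivity)] at hx
        simpa [abs_of_pos hx0] using hx
      filter_upwards [h2, Real.tendsto_log_atTop.eventually_ge_atTop 1, eventually_gt_atTop 0]
        with x hx hx1 hx0
      have h4 : Real.log (Real.log x) ≤ Real.log x := by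
        have := Real.log_le_sub_one_of_pos (show 0 < Real.log x by linarith)
        linarith
      calc 64 / aa k * (Real.log x * Real.log (Real.log x)) ≤
            64 / aa k * (Real.log x * Real.log x) := by gcongr
        _ = 64 / aa k * (Real.log x) ^ 2 := by ring
        _ ≤ 64 / aa k * (1 / (2 * (64 / aa k)) * x) := by gcongr
        _ = x / 2 := by field_simp
    exact tendsto_natCast_atTop_atTop.eventually h1
  have ht : Tendsto (fun m : ℕ => 2 ^ (m + k)) atTop atTop := by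
    have h1 : Tendsto (fun m : ℕ => 2 ^ m) atTop atTop := tendsto_pow_atTop_atTop_of_one_lt (by norm_num)
    exact h1.comp (tendsto_add_atTop_nat k)
  obtain ⟨m0, hm0⟩ := eventually_atTop.1 ((sh_fermat k (b0 - 1) (b0 + 2)).and
    ((ht.eventually hgap).and (ht.eventually_ge_atTop P)))
  refine ⟨4 * K * (Real.log 2 / 2 ^ k) ^ 2, by positivity, m0, fun m m' hm hmm => ?_⟩
  obtain ⟨h1, _, h3⟩ := hm0 m hm
  obtain ⟨g1, g2, _⟩ := hm0 m' (by omega)
  set p := 2 ^ (m + k) with hp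
  set q := 2 ^ (m' + k) with hq
  have hpq : 2 * p ≤ q := by
    rw [hp, hq, ← pow_succ']
    exact Nat.pow_le_pow_right (by norm_num) (by omega)
  have hp1 : 1 ≤ p := Nat.one_le_two_pow
  have hpr : (1 : ℝ) ≤ p := by exact_mod_cast hp1
  have hpqr : 2 * (p : ℝ) ≤ q := by exact_mod_cast hpq
  rw [vol_pair]
  have h4 := hP p q h3 (by omega) _ _ _ _ h1 g1 (by linarith) b0 (b0 + 1) le_rfl (by linarith) le_rfl
  refine h4.trans ?_
  have hwp : 0 ≤ Real.log p / p := div_nonneg (Real.log_natCast_nonneg p) (Nat.cast_nonneg p)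
  have hlq : 0 ≤ Real.log q := Real.log_natCast_nonneg q
  have hq0 : (0 : ℝ) < q := by linarith
  have h6 : (b0 + 1 - b0) + 1 / (p : ℝ) ≤ 2 := by
    have : 1 / (p : ℝ) ≤ 1 := by rw [div_le_one (by linarith)]; exact hpr
    linarith
  have h7 : Real.log q / (q - p) ≤ 2 * (Real.log q / q) := by
    calc Real.log q / (q - p) ≤ Real.log q / (q / 2) :=
          div_le_div_of_nonneg_left hlq (by positivity) (by linarith)
      _ = _ := by field_simp
  have h8 : 0 ≤ Real.log q / (q - p) := div_nonneg hlq (by linarith)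
  have ew : Real.log p / p = (((m : ℝ) + k) / 2 ^ m) * (Real.log 2 / 2 ^ k) := by
    rw [hp, weight_eq]
    field_simp
  have ew' : Real.log q / q = (((m' : ℝ) + k) / 2 ^ m') * (Real.log 2 / 2 ^ k) := by
    rw [hq, weight_eq]
    field_simp
  calc K * ((b0 + 1 - b0) + 1 / p) * (Real.log p / p) * (Real.log q / (q - p)) ≤
        K * 2 * (Real.log p / p) * (2 * (Real.log q / q)) := by gcongr
    _ = _ := by rw [ew, ew']; ring

/-! ### Sums -/

/-- the tail of the main term -/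
lemma tail_main (k M : ℕ) : HasSum (fun j : ℕ => (((M + j : ℕ) : ℝ) + k) / 2 ^ (M + j))
    (2 * ((M : ℝ) + k + 1) / 2 ^ M) := by
  have h1 : HasSum (fun j : ℕ => (1 / 2 : ℝ) ^ j) 2 := hasSum_geometric_two
  have h2 : HasSum (fun j : ℕ => (j : ℝ) * (1 / 2 : ℝ) ^ j) ((1 / 2) / (1 - 1 / 2) ^ 2) :=
    hasSum_coe_mul_geometric_of_norm_lt_one (by norm_num)
  have h3 := ((h1.mul_left ((M : ℝ) + k)).add h2).mul_left (1 / 2 ^ M)
  have e : 1 / (2 : ℝ) ^ M * (((M : ℝ) + k) * 2 + (1 / 2) / (1 - 1 / 2) ^ 2) =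
      2 * ((M : ℝ) + k + 1) / 2 ^ M := by
    norm_num
    ring
  rw [e] at h3
  refine h3.congr_fun ?_
  intro j
  push_cast
  rw [pow_add, one_div_pow]
  field_simp
  ring

lemma tail_err (M : ℕ) : HasSum (fun j : ℕ => (1 : ℝ) / 2 ^ (M + j)) (2 / 2 ^ M) := by
  have h1 := (hasSum_geometric_two).mul_left (1 / (2 : ℝ) ^ M)
  have e : 1 / (2 : ℝ) ^ M * 2 = 2 / 2 ^ M := by ring
  rw [e] at h1
  refine h1.congr_fun ?_
  intro j
  rw [pow_add, one_div_pow]
  field_simp

/-- Bonferroni -/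
lemma bonf {Ω : Type*} [MeasurableSpace Ω] (μ : Measure Ω) [IsFiniteMeasure μ] (E : ℕ → Set Ω)
    (hE : ∀ j, MeasurableSet (E j)) (N : ℕ) :
    ∑ j ∈ range N, μ.real (E j) - ∑ j ∈ range N, ∑ i ∈ range j, μ.real (E i ∩ E j) ≤
      μ.real (⋃ j ∈ range N, E j) := by
  induction N with
  | zero => simp
  | succ N ih =>
    rw [sum_range_succ, sum_range_succ]
    have h1 : (⋃ j ∈ range (N + 1), E j) = (⋃ j ∈ range N, E j) ∪ E N := by
      rw [range_add_one, Finset.set_biUnion_insert, Set.union_comm]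
    have h2 := measureReal_union_add_inter (μ := μ) (s := ⋃ j ∈ range N, E j) (hE N)
      (measure_ne_top _ _) (measure_ne_top _ _)
    have h3 : μ.real ((⋃ j ∈ range N, E j) ∩ E N) ≤ ∑ i ∈ range N, μ.real (E i ∩ E N) := by
      rw [Set.iUnion₂_inter]
      exact measureReal_biUnion_finset_le _ _
    rw [h1]
    linarith

/-- **The tail law.** -/
theorem tail_law (k : ℕ) (b0 : ℝ) : ∃ K : ℝ, ∀ M : ℕ,
    Summable (fun j => volume.real (EvF k b0 (M + j))) ∧
    |∑' j, volume.real (EvF k b0 (M + j)) -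
      Real.exp Real.eulerMascheroniConstant * (2 * ((M : ℝ) + k + 1) / 2 ^ M)| ≤ K / 2 ^ M ∧
    |volume.real (⋃ j, EvF k b0 (M + j)) -
      Real.exp Real.eulerMascheroniConstant * (2 * ((M : ℝ) + k + 1) / 2 ^ M)| ≤ K / 2 ^ M := by
  obtain ⟨K1, hK1, h1⟩ := one_index k b0
  obtain ⟨K2, hK2, m0, h2⟩ := pair_index k b0
  set G := Real.exp Real.eulerMascheroniConstant with hG
  have hG0 : 0 < G := Real.exp_pos _
  set μ : Measure ℝ := volume.restrict (Set.Ioc b0 (b0 + 1)) with hμ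
  have hfin : IsFiniteMeasure μ := ⟨by rw [hμ]; simp⟩
  have hμE : ∀ s : Set ℝ, MeasurableSet s → s ⊆ Set.Ioc b0 (b0 + 1) → μ.real s = volume.real s := by
    intro s hs hsub
    rw [hμ, measureReal_restrict_apply hs, Set.inter_eq_left.2 hsub]
  set x : ℕ → ℝ := fun m => volume.real (EvF k b0 m) with hx
  set w : ℕ → ℝ := fun m => ((m : ℝ) + k) / 2 ^ m with hw
  have hw0 : ∀ m, 0 ≤ w m := fun m => by simp only [hw]; positivity
  have hx0 : ∀ m, 0 ≤ x m := fun m => measureReal_nonneg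
  have hxle : ∀ m, x m ≤ G * w m + K1 * (1 / 2 ^ m) := fun m => by
    have := (abs_le.1 (h1 m)).2
    simp only [hx, hw]
    have e : G * (((m : ℝ) + k) / 2 ^ m) + K1 * (1 / 2 ^ m) = G * ((m : ℝ) + k) / 2 ^ m + K1 / 2 ^ m := by
      ring
    rw [e]
    linarith
  have hxge : ∀ m, G * w m - K1 * (1 / 2 ^ m) ≤ x m := fun m => by
    have := (abs_le.1 (h1 m)).1
    simp only [hx, hw]
    have e : G * (((m : ℝ) + k) / 2 ^ m) - K1 * (1 / 2 ^ m) = G * ((m : ℝ) + k) / 2 ^ m - K1 / 2 ^ m := by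
      ring
    rw [e]
    linarith
  have hs : ∀ M, Summable (fun j => x (M + j)) := by
    intro M
    refine Summable.of_nonneg_of_le (fun j => hx0 _) (fun j => hxle (M + j)) ?_
    exact ((tail_main k M).summable.mul_left G).add ((tail_err M).summable.mul_left K1)
  have hmean : ∀ M : ℕ, |∑' j, x (M + j) - G * (2 * ((M : ℝ) + k + 1) / 2 ^ M)| ≤ 2 * K1 / 2 ^ M := by
    intro M
    have a1 : HasSum (fun j => G * w (M + j)) (G * (2 * ((M : ℝ) + k + 1) / 2 ^ M)) :=
      (tail_main k M).mul_left G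
    have a2 : HasSum (fun j => K1 * (1 / (2 : ℝ) ^ (M + j))) (K1 * (2 / 2 ^ M)) :=
      (tail_err M).mul_left K1
    have b1 := (hs M).tsum_le_tsum (fun j => hxle (M + j)) (a1.summable.add a2.summable)
    have b2 := (a1.summable.sub a2.summable).tsum_le_tsum (fun j => hxge (M + j)) (hs M)
    rw [(a1.add a2).tsum_eq] at b1
    rw [(a1.sub a2).tsum_eq] at b2
    have e : 2 * K1 / (2 : ℝ) ^ M = K1 * (2 / 2 ^ M) := by ring
    rw [e, abs_le]
    constructor <;> linarith
  -- the union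
  have hum : ∀ M, MeasurableSet (⋃ j, EvF k b0 (M + j)) := fun M =>
    MeasurableSet.iUnion fun j => measurable_EvF k b0 (M + j)
  have husub : ∀ M, (⋃ j, EvF k b0 (M + j)) ⊆ Set.Ioc b0 (b0 + 1) := fun M =>
    Set.iUnion_subset fun j _ h => h.1
  have hune : ∀ M, volume (⋃ j, EvF k b0 (M + j)) ≠ ⊤ := fun M =>
    measure_ne_top_of_subset (husub M) (by simp)
  have hup : ∀ M, volume.real (⋃ j, EvF k b0 (M + j)) ≤ ∑' j, x (M + j) := by
    intro M
    have a1 := measure_iUnion_le (μ := volume) (fun j => EvF k b0 (M + j))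
    have a2 : ∀ j, volume (EvF k b0 (M + j)) = ENNReal.ofReal (x (M + j)) := fun j => by
      simp only [hx, measureReal_def]
      exact (ENNReal.ofReal_toReal (EvF_ne_top k b0 (M + j))).symm
    rw [tsum_congr a2, ← ENNReal.ofReal_tsum_of_nonneg (fun j => hx0 _) (hs M)] at a1
    have a3 := ENNReal.toReal_mono ENNReal.ofReal_ne_top a1
    rwa [ENNReal.toReal_ofReal (tsum_nonneg fun j => hx0 _)] at a3
  -- lower bound for `M ≥ m0`
  have hlow : ∀ M, m0 ≤ M → ∑' j, x (M + j) - K2 * (2 * ((M : ℝ) + k + 1) / 2 ^ M) ^ 2 ≤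
      volume.real (⋃ j, EvF k b0 (M + j)) := by
    intro M hM
    set W := 2 * ((M : ℝ) + k + 1) / 2 ^ M with hW
    have hWs : HasSum (fun j => w (M + j)) W := tail_main k M
    have hpart : ∀ N : ℕ, ∑ j ∈ range N, x (M + j) - K2 * W ^ 2 ≤
        volume.real (⋃ j, EvF k b0 (M + j)) := by
      intro N
      have a1 := bonf μ (fun j => EvF k b0 (M + j)) (fun j => measurable_EvF k b0 (M + j)) N
      have a2 : ∀ j, μ.real (EvF k b0 (M + j)) = x (M + j) := fun j =>
        hμE _ (measurable_EvF _ _ _) (fun _ h => h.1)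
      simp only [a2] at a1
      have a3 : ∑ j ∈ range N, ∑ i ∈ range j, μ.real (EvF k b0 (M + i) ∩ EvF k b0 (M + j)) ≤
          K2 * W ^ 2 := by
        calc ∑ j ∈ range N, ∑ i ∈ range j, μ.real (EvF k b0 (M + i) ∩ EvF k b0 (M + j)) ≤
            ∑ j ∈ range N, ∑ i ∈ range N, K2 * w (M + i) * w (M + j) := by
              refine sum_le_sum fun j hj => ?_
              rw [mem_range] at hj
              refine (sum_le_sum fun i hi => ?_).trans (sum_le_sum_of_subset_of_nonneg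
                (range_subset_range.2 hj.le) fun i _ _ =>
                  mul_nonneg (mul_nonneg hK2.le (hw0 _)) (hw0 _))
              rw [mem_range] at hi
              rw [hμE _ ((measurable_EvF _ _ _).inter (measurable_EvF _ _ _)) (fun _ h => h.1.1)]
              exact h2 (M + i) (M + j) (by omega) (by omega)
          _ = K2 * (∑ i ∈ range N, w (M + i)) ^ 2 := by
              rw [sq, sum_mul_sum, mul_sum, sum_comm]
              refine sum_congr rfl fun i _ => ?_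
              rw [mul_sum]
              exact sum_congr rfl fun j _ => by ring
          _ ≤ K2 * W ^ 2 := by
              refine mul_le_mul_of_nonneg_left ?_ hK2.le
              refine pow_le_pow_left₀ (sum_nonneg fun i _ => hw0 _) ?_ 2
              rw [← hWs.tsum_eq]
              exact hWs.summable.sum_le_tsum _ (fun i _ => hw0 _)
      have a4 : μ.real (⋃ j ∈ range N, EvF k b0 (M + j)) ≤ volume.real (⋃ j, EvF k b0 (M + j)) := by
        rw [hμE _ (Finset.measurableSet_biUnion _ fun j _ => measurable_EvF _ _ _)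
          (Set.iUnion₂_subset fun j _ _ h => h.1)]
        exact measureReal_mono (Set.iUnion₂_subset fun j _ => Set.subset_iUnion (fun j =>
          EvF k b0 (M + j)) j) (hune M)
      linarith
    have hlim := (hs M).hasSum.tendsto_sum_nat
    exact le_of_tendsto (hlim.sub_const _) (Eventually.of_forall hpart)
  -- the square is small
  obtain ⟨K3, hK3⟩ : ∃ K3 : ℝ, ∀ M : ℕ, (2 * ((M : ℝ) + k + 1) / 2 ^ M) ^ 2 ≤ K3 / 2 ^ M := by
    have h3 : Tendsto (fun M : ℕ => 4 * ((M : ℝ) + k + 1) ^ 2 / 2 ^ M) atTop (𝓝 0) := by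
      have c2 : Tendsto (fun m : ℕ => (m : ℝ) ^ 2 / 2 ^ m) atTop (𝓝 0) :=
        tendsto_pow_const_div_const_pow_of_one_lt 2 (by norm_num)
      have c1 : Tendsto (fun m : ℕ => (m : ℝ) ^ 1 / 2 ^ m) atTop (𝓝 0) :=
        tendsto_pow_const_div_const_pow_of_one_lt 1 (by norm_num)
      have c0 : Tendsto (fun m : ℕ => (1 : ℝ) / 2 ^ m) atTop (𝓝 0) :=
        (tendsto_pow_atTop_atTop_of_one_lt (by norm_num : (1 : ℝ) < 2)).const_div_atTop _
      have c := (((c2.const_mul 4).add (c1.const_mul (8 * ((k : ℝ) + 1)))).add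
        (c0.const_mul (4 * ((k : ℝ) + 1) ^ 2)))
      simp only [mul_zero, add_zero] at c
      refine c.congr fun m => ?_
      rw [pow_one]
      ring
    obtain ⟨K3, hK3⟩ := h3.bddAbove_range
    refine ⟨K3, fun M => ?_⟩
    have h4 : 4 * ((M : ℝ) + k + 1) ^ 2 / 2 ^ M ≤ K3 := hK3 ⟨M, rfl⟩
    have e : (2 * ((M : ℝ) + k + 1) / 2 ^ M) ^ 2 = (4 * ((M : ℝ) + k + 1) ^ 2 / 2 ^ M) / 2 ^ M := by
      field_simp
      ring
    rw [e]
    exact div_le_div_of_nonneg_right h4 (by positivity)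
  have hK30 : 0 ≤ K3 := by
    have h4 := hK3 0
    have h5 : 0 ≤ (2 * (((0 : ℕ) : ℝ) + k + 1) / 2 ^ 0) ^ 2 := sq_nonneg _
    have h6 := h5.trans h4
    simpa using h6
  refine ⟨2 * K1 + K2 * K3 + 2 ^ m0 * (1 + G * (2 * ((m0 : ℝ) + k + 1))), fun M => ⟨hs M, ?_, ?_⟩⟩
  · refine (hmean M).trans (div_le_div_of_nonneg_right ?_ (by positivity))
    have : 0 ≤ (2 : ℝ) ^ m0 * (1 + G * (2 * ((m0 : ℝ) + k + 1))) := by positivity
    have := mul_nonneg hK2.le hK30
    linarith
  · rcases le_or_gt m0 M with hM | hM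
    · have a1 := abs_le.1 (hmean M)
      have a2 := hlow M hM
      have a3 := hup M
      have a4 := mul_le_mul_of_nonneg_left (hK3 M) hK2.le
      have e : (2 * K1 + K2 * K3 + 2 ^ m0 * (1 + G * (2 * ((m0 : ℝ) + k + 1)))) / 2 ^ M =
          2 * K1 / 2 ^ M + K2 * (K3 / 2 ^ M) +
            2 ^ m0 * (1 + G * (2 * ((m0 : ℝ) + k + 1))) / 2 ^ M := by ring
      have a5 : 0 ≤ 2 ^ m0 * (1 + G * (2 * ((m0 : ℝ) + k + 1))) / 2 ^ M := by positivity
      have a6 : 0 ≤ K2 * (K3 / 2 ^ M) := by positivity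
      rw [e, abs_le]
      constructor <;> linarith [a1.1, a1.2]
    · have a1 : volume.real (⋃ j, EvF k b0 (M + j)) ≤ 1 := by
        have h2 := measureReal_mono (μ := volume) (husub M) (by simp)
        rw [Real.volume_real_Ioc_of_le (by linarith)] at h2
        linarith
      have a0 : 0 ≤ volume.real (⋃ j, EvF k b0 (M + j)) := measureReal_nonneg
      have a2 : G * (2 * ((M : ℝ) + k + 1) / 2 ^ M) ≤ G * (2 * ((m0 : ℝ) + k + 1)) := by
        refine mul_le_mul_of_nonneg_left ?_ hG0.le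
        refine (div_le_self (by positivity) (one_le_pow₀ (by norm_num))).trans ?_
        have : (M : ℝ) ≤ m0 := by exact_mod_cast hM.le
        linarith
      have a3 : 0 ≤ G * (2 * ((M : ℝ) + k + 1) / 2 ^ M) := by positivity
      have a4 : 1 + G * (2 * ((m0 : ℝ) + k + 1)) ≤
          (2 * K1 + K2 * K3 + 2 ^ m0 * (1 + G * (2 * ((m0 : ℝ) + k + 1)))) / 2 ^ M := by
        rw [le_div_iff₀ (by positivity)]
        have h5 : (2 : ℝ) ^ M ≤ 2 ^ m0 := pow_le_pow_right₀ (by norm_num) hM.le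
        have h6 : 0 ≤ 1 + G * (2 * ((m0 : ℝ) + k + 1)) := by positivity
        have h7 := mul_nonneg hK2.le hK30
        nlinarith
      rw [abs_le]
      constructor <;> linarith

end Pool.Agent.H627.FN
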